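import Pool.Agent.TH592.BF.Sweep

/-!
A bipartite plane graph above the axis, together with a vertex joined to arbitrary vertices by
straight edges which start at different points of the axis.
-/

set_option autoImplicit false
set_option linter.unusedSectionVars false

namespace Pool.Agent.TH592.BF

open Polynomial Pool.Agent.H207R2.BL Pool.Agent.H110R3.BP Pool.Agent.H110R3.BP2

theorem apex_pos {X W : Type} [Finite X] [Finite W] (H : SimpleGraph X) (f : X → ℝ × ℝ)
    (hf : IsStraight H f) (hup : ∀ v, 0 ≤ (f v).2) (B : Set X) (hB : ∀ b ∈ B, (f b).2 = 0)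
    (hind : ∀ a ∈ B, ∀ b ∈ B, ¬ H.Adj a b) (col : X → Bool)
    (hcol : ∀ a c, a ∉ B → c ∉ B → H.Adj a c → col a ≠ col c) (K : SimpleGraph W) (ψ : X → W)
    (u : W) (hu : ∀ b ∈ B, ψ b = u) (hinj : ∀ a, a ∉ B → ∀ c, c ∉ B → ψ a = ψ c → a = c)
    (hne : ∀ a, a ∉ B → ψ a ≠ u)
    (hK : ∀ a b : W, K.Adj a b ↔ ∃ x y, ψ x = a ∧ ψ y = b ∧ H.Adj x y) (p : ℝ[X])
    (hp : IsChrom K p) (q : ℝ) (hq : 4 ≤ q) : 0 < p.eval q := by
  classical
  have : Fintype W := Fintype.ofFinite W
  obtain ⟨ε, hε⟩ := exists_shear f hf.1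
  have hs := straight_shear f hf ε
  have hβ : ∀ v : X, ∃ b : X, (∃ b ∈ B, H.Adj b v) → b ∈ B ∧ H.Adj b v := by
    intro v
    by_cases h : ∃ b ∈ B, H.Adj b v
    · obtain ⟨b, h1, h2⟩ := h
      exact ⟨b, fun _ => ⟨h1, h2⟩⟩
    · exact ⟨v, fun h' => absurd h' h⟩
  choose β hβ using hβ
  let H' : SimpleGraph X :=
    { Adj := fun a c => H.Adj a c ∧ (a ∈ B → a = β c) ∧ (c ∈ B → c = β a)
      symm := ⟨fun a c h => ⟨h.1.symm, h.2.2, h.2.1⟩⟩
      loopless := ⟨fun a h => h.1.ne rfl⟩ }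
  have hH' : ∀ a c, H'.Adj a c → H.Adj a c := fun a c h => h.1
  have hs' : IsStraight H' (fun v => ((f v).1 + ε * (f v).2, (f v).2)) :=
    ⟨hs.1, fun a c w h => hs.2.1 a c w (hH' a c h),
      fun a c a' c' h h' hne => hs.2.2 a c a' c' (hH' a c h) (hH' a' c' h') hne⟩
  let x : X → ℝ := fun v => (f v).1 + ε * (f v).2
  let y : X → ℝ := fun v => (f v).2
  let g : X → X → ℝ → ℝ := fun a c t =>
    (f a).2 + (t - x a) / (x c - x a) * ((f c).2 - (f a).2)
  have hmono : Mono H' x y g := mono_of_straight _ hs' hε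
  have hL : Legs H' x y g B ψ u := by
    refine ⟨hmono, ?_, ?_, ?_, hinj, hne⟩
    · intro a ha b hb h
      exact hind a ha b hb h.1
    · intro v hv a ha b hb h1 h2
      rw [h1.2.1 ha, h2.2.1 hb]
    · intro b hb a c hac h1 h2
      have h3 := hmono.vert a c b hac h1 h2
      have hb0 := hB b hb
      have ha0 := hup a
      have hc0 := hup c
      refine lt_of_le_of_ne ?_ h3.symm
      change (f b).2 ≤ (f a).2 + (x b - x a) / (x c - x a) * ((f c).2 - (f a).2)
      rw [hb0]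
      set s : ℝ := (x b - x a) / (x c - x a) with hsdef
      have hden : 0 < x c - x a := by linarith
      have hs0 : 0 ≤ s := div_nonneg (by linarith) hden.le
      have hs1 : s ≤ 1 := by
        rw [hsdef, div_le_one hden]
        linarith
      change 0 ≤ (f a).2 + s * ((f c).2 - (f a).2)
      have e1 : (f a).2 + s * ((f c).2 - (f a).2) = (1 - s) * (f a).2 + s * (f c).2 := by ring
      rw [e1]
      have := mul_nonneg (sub_nonneg.2 hs1) ha0
      have := mul_nonneg hs0 hc0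
      linarith
  obtain ⟨t, ht⟩ := straight_proc_bound (fun v => (f v).1 + ε * (f v).2)
  have h3 := sweep H' x y g B ψ u hL _ t rfl (fun v => (ht v).ne) [] ⟨fun e => by
      constructor
      · intro he
        simp at he
      · rintro ⟨-, -, h4⟩
        exact absurd (ht e.2) (not_lt.2 h4.le), List.Pairwise.nil⟩
  have hE : Et H' x B ψ u t = K.edgeSet := by
    ext e
    induction e using Sym2.ind with
    | _ w1 w2 =>
      rw [SimpleGraph.mem_edgeSet]
      simp only [Et, Set.mem_ofPred_eq]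
      constructor
      · rintro (⟨a, c, haB, hcB, he, hadj, -, -⟩ | ⟨b, v, hbB, hvB, he, hadj, -⟩)
        · have h4 : K.Adj (ψ a) (ψ c) := (hK _ _).2 ⟨a, c, rfl, rfl, hH' _ _ hadj⟩
          rcases Sym2.eq_iff.1 he with ⟨rfl, rfl⟩ | ⟨rfl, rfl⟩
          · exact h4
          · exact h4.symm
        · have h4 : K.Adj u (ψ v) := (hK _ _).2 ⟨b, v, hu b hbB, rfl, hH' _ _ hadj⟩
          rcases Sym2.eq_iff.1 he with ⟨rfl, rfl⟩ | ⟨rfl, rfl⟩
          · exact h4
          · exact h4.symm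
      · intro h4
        obtain ⟨a, c, rfl, rfl, hadj⟩ := (hK _ _).1 h4
        by_cases haB : a ∈ B
        · have hcB : c ∉ B := fun h => hind a haB c h hadj
          obtain ⟨h5, h6⟩ := hβ c ⟨a, haB, hadj⟩
          refine Or.inr ⟨β c, c, h5, hcB, by rw [hu a haB], ⟨h6, fun _ => rfl,
            fun h => absurd h hcB⟩, ht _⟩
        · by_cases hcB : c ∈ B
          · obtain ⟨h5, h6⟩ := hβ a ⟨c, hcB, hadj.symm⟩
            refine Or.inr ⟨β a, a, h5, haB, by rw [hu c hcB]; exact Sym2.eq_swap,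
              ⟨h6, fun _ => rfl, fun h => absurd h haB⟩, ht _⟩
          · exact Or.inl ⟨a, c, haB, hcB, rfl, ⟨hadj, fun h => absurd h haB,
              fun h => absurd h hcB⟩, ht _, ht _⟩
  rw [List.map_nil, hE] at h3
  let colW : W → Bool := fun w => if h : ∃ v, v ∉ B ∧ ψ v = w then col (Classical.choose h)
    else false
  have hcolW : ∀ v, v ∉ B → colW (ψ v) = col v := by
    intro v hv
    have h : ∃ v', v' ∉ B ∧ ψ v' = ψ v := ⟨v, hv, rfl⟩
    have h5 := Classical.choose_spec h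
    simp only [colW, dif_pos h]
    rw [hinj _ h5.1 _ hv h5.2]
  have hb : BipU u colW K.edgeSet := by
    intro w1 w2 h4 hw1 hw2
    rw [SimpleGraph.mem_edgeSet] at h4
    obtain ⟨a, c, rfl, rfl, hadj⟩ := (hK _ _).1 h4
    have haB : a ∉ B := fun h => hw1 (hu a h)
    have hcB : c ∉ B := fun h => hw2 (hu c h)
    rw [hcolW a haB, hcolW c hcB]
    exact hcol a c haB hcB hadj
  exact good1_pos u colW K (good1_of_procU u colW h3 hb) p hp q hq

end Pool.Agent.TH592.BF
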