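import Pool.Agent.TH592.BF.Fold

/-!
Colourings of a graph obtained from a half by identifying boundary vertices.
-/

set_option autoImplicit false
set_option linter.unusedSectionVars false

namespace Pool.Agent.TH592.BF

open Polynomial Pool.Agent.H207R2.BL

theorem fold_count {V W : Type} [Fintype V] [DecidableEq V] {n : ℕ}
    (N : SimpleGraph (V ⊕ Fin n)) (K : SimpleGraph W) (φ : V ⊕ Fin n → W)
    (hsurj : Function.Surjective φ)
    (hadj : ∀ a b, K.Adj a b ↔ ∃ x y, φ x = a ∧ φ y = b ∧ N.Adj x y)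
    (hax : ∀ x y, φ x = φ y → x ≠ y → ∃ i, x = Sum.inr i)
    (r : ℝ[X]) (hr : IsChrom K r) (k : ℕ) :
    r.eval (k : ℝ) =
      ∑ c : Fin n → Fin k, Pool.Agent.H207R2.BL.inner N k c * ind (Setoid.ker (fun i => φ (Sum.inr i))) c := by
  classical
  rw [hr k]
  have key : ∀ g : V ⊕ Fin n → Fin k,
      (∀ i j : Fin n, φ (Sum.inr i) = φ (Sum.inr j) → g (Sum.inr i) = g (Sum.inr j)) →
      ∀ a b, φ a = φ b → g a = g b := by
    intro g hg a b hab
    by_cases hne : a = b
    · rw [hne]
    · obtain ⟨i, rfl⟩ := hax a b hab hne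
      obtain ⟨j, rfl⟩ := hax b _ hab.symm (Ne.symm hne)
      exact hg i j hab
  have e : K.Coloring (Fin k) ≃ {g : V ⊕ Fin n → Fin k // Proper N g ∧
      ∀ i j : Fin n, φ (Sum.inr i) = φ (Sum.inr j) → g (Sum.inr i) = g (Sum.inr j)} :=
    { toFun := fun c => ⟨fun x => c (φ x),
        fun a b h => c.valid ((hadj _ _).2 ⟨a, b, rfl, rfl, h⟩), fun i j h => congrArg c h⟩
      invFun := fun g => SimpleGraph.Coloring.mk (fun w => g.1 (Function.surjInv hsurj w)) (by
        intro v w hvw
        obtain ⟨x, y, hx, hy, hxy⟩ := (hadj _ _).1 hvw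
        have h1 : g.1 (Function.surjInv hsurj v) = g.1 x :=
          key g.1 g.2.2 _ _ (by rw [Function.surjInv_eq hsurj, hx])
        have h2 : g.1 (Function.surjInv hsurj w) = g.1 y :=
          key g.1 g.2.2 _ _ (by rw [Function.surjInv_eq hsurj, hy])
        rw [h1, h2]
        exact g.2.1 x y hxy)
      left_inv := by
        intro c
        apply DFunLike.ext
        intro w
        change c (φ (Function.surjInv hsurj w)) = c w
        rw [Function.surjInv_eq hsurj]
      right_inv := by
        intro g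
        apply Subtype.ext
        funext x
        change g.1 (Function.surjInv hsurj (φ x)) = g.1 x
        exact key g.1 g.2.2 _ _ (by rw [Function.surjInv_eq hsurj]) }
  rw [Nat.card_congr e, Nat.card_eq_fintype_card, Fintype.card_subtype]
  have h1 : ((Finset.univ.filter (fun g : V ⊕ Fin n → Fin k => Proper N g ∧
      ∀ i j : Fin n, φ (Sum.inr i) = φ (Sum.inr j) → g (Sum.inr i) = g (Sum.inr j))).card : ℝ) =
      ∑ g : V ⊕ Fin n → Fin k, pr N g *
        ind (Setoid.ker (fun i => φ (Sum.inr i))) (fun i => g (Sum.inr i)) := by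
    rw [← Finset.sum_boole]
    refine Finset.sum_congr rfl (fun g _ => ?_)
    by_cases h2 : Proper N g
    · by_cases h3 : ∀ i j : Fin n, φ (Sum.inr i) = φ (Sum.inr j) → g (Sum.inr i) = g (Sum.inr j)
      · rw [if_pos ⟨h2, h3⟩, ind_of _ _ (fun x y h => h3 x y h)]
        unfold pr
        rw [if_pos h2, mul_one]
      · rw [if_neg (fun h => h3 h.2), ind_not _ _ (fun h => h3 (fun i j hij => h i j hij)),
          mul_zero]
    · rw [if_neg (fun h => h2 h.1)]
      unfold pr
      rw [if_neg h2, zero_mul]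
  rw [h1]
  rw [← (Equiv.sumArrowEquivProdArrow V (Fin n) (Fin k)).symm.sum_comp]
  rw [Fintype.sum_prod_type, Finset.sum_comm]
  refine Finset.sum_congr rfl (fun c _ => ?_)
  unfold Pool.Agent.H207R2.BL.inner
  rw [Finset.sum_mul]
  refine Finset.sum_congr rfl (fun x _ => ?_)
  rfl

end Pool.Agent.TH592.BF
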