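import Pool.Agent.TH592.BF.Apex
import Pool.Agent.TH592.BF.Tw2

/-!
Graphs drawn above the axis with the vertices of a set on the axis identified to one vertex:
subgraphs and twins of vertices of degree two.
-/

set_option autoImplicit false
set_option linter.unusedSectionVars false

namespace Pool.Agent.TH592.BF

open Polynomial Pool.Agent.H207R2.BL Pool.Agent.H110R3.BP Pool.Agent.TH592.BL

/-- `K` arises from a graph drawn in the closed upper half plane with straight edges by identifying
a set `B` of not adjacent vertices on the axis to the vertex `u`. -/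
def Drawn {W : Type} (K : SimpleGraph W) (u : W) : Prop :=
  ∃ (X : Type) (_ : Finite X) (H : SimpleGraph X) (f : X → ℝ × ℝ) (B : Set X) (ψ : X → W),
    IsStraight H f ∧ (∀ v, 0 ≤ (f v).2) ∧ (∀ b ∈ B, (f b).2 = 0) ∧
    (∀ a ∈ B, ∀ b ∈ B, ¬ H.Adj a b) ∧ (∀ b ∈ B, ψ b = u) ∧
    (∀ a, a ∉ B → ∀ c, c ∉ B → ψ a = ψ c → a = c) ∧ (∀ a, a ∉ B → ψ a ≠ u) ∧
    (∀ a b : W, K.Adj a b ↔ ∃ x y, ψ x = a ∧ ψ y = b ∧ H.Adj x y)

theorem Drawn.le {W : Type} {K K' : SimpleGraph W} {u : W} (h : Drawn K u)
    (hle : ∀ a b, K'.Adj a b → K.Adj a b) : Drawn K' u := by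
  obtain ⟨X, hX, H, f, B, ψ, hs, hup, hB, hind, hu, hinj, hne, hK⟩ := h
  let H' : SimpleGraph X :=
    { Adj := fun x y => H.Adj x y ∧ K'.Adj (ψ x) (ψ y)
      symm := ⟨fun x y h => ⟨h.1.symm, h.2.symm⟩⟩
      loopless := ⟨fun x h => h.1.ne rfl⟩ }
  refine ⟨X, hX, H', f, B, ψ, ⟨hs.1, fun x y z h => hs.2.1 x y z h.1,
    fun x y x' y' h h' hne => hs.2.2 x y x' y' h.1 h'.1 hne⟩, hup, hB,
    fun a ha b hb h => hind a ha b hb h.1, hu, hinj, hne, ?_⟩
  intro a b
  constructor
  · intro h
    obtain ⟨x, y, rfl, rfl, hxy⟩ := (hK a b).1 (hle a b h)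
    exact ⟨x, y, rfl, rfl, hxy, h⟩
  · rintro ⟨x, y, rfl, rfl, hxy⟩
    exact hxy.2

theorem Drawn.twin {W : Type} {K : SimpleGraph W} {u : W} (h : Drawn K u)
    (c a b : W) (hab : a ≠ b) (hN : ∀ x, K.Adj c x ↔ x = a ∨ x = b) (hcu : c ≠ u) :
    Drawn (Pool.Agent.TH592.BL.twin K a b) (some u) := by
  classical
  obtain ⟨X, hX, H, f, B, ψ, hs, hup, hB, hind, hu, hinj, hne, hK⟩ := h
  obtain ⟨c', a', hc', ha', h1⟩ := (hK c a).1 ((hN a).2 (Or.inl rfl))
  obtain ⟨c'', b', hc'', hb', h2⟩ := (hK c b).1 ((hN b).2 (Or.inr rfl))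
  have hcB : c' ∉ B := fun h => hcu (hc'.symm.trans (hu c' h))
  have hcB' : c'' ∉ B := fun h => hcu (hc''.symm.trans (hu c'' h))
  have hcc : c'' = c' := hinj c'' hcB' c' hcB (hc''.trans hc'.symm)
  subst hcc
  have hab' : a' ≠ b' := by
    rintro rfl
    exact hab (ha'.symm.trans hb')
  let H' : SimpleGraph X :=
    { Adj := fun x y => H.Adj x y ∧ (x = c'' → y = a' ∨ y = b') ∧ (y = c'' → x = a' ∨ x = b')
      symm := ⟨fun x y h => ⟨h.1.symm, h.2.2, h.2.1⟩⟩
      loopless := ⟨fun x h => h.1.ne rfl⟩ }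
  have hs' : IsStraight H' f := ⟨hs.1, fun x y z h => hs.2.1 x y z h.1,
    fun x y x' y' h h' hne => hs.2.2 x y x' y' h.1 h'.1 hne⟩
  have hN' : ∀ x, H'.Adj c'' x ↔ x = a' ∨ x = b' := by
    intro x
    constructor
    · intro h
      exact h.2.1 rfl
    · rintro (rfl | rfl)
      · exact ⟨h1, fun _ => Or.inl rfl, fun h => absurd h.symm h1.ne⟩
      · exact ⟨h2, fun _ => Or.inr rfl, fun h => absurd h.symm h2.ne⟩
  obtain ⟨g, hg1, hg2, hg3⟩ := twin_nonneg H' f hs' c'' a' b' hab' hN' (hup c'')
  refine ⟨Option X, inferInstance, Pool.Agent.TH592.BL.twin H' a' b', g, some '' B,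
    Option.map ψ, hg2, ?_, ?_, ?_, ?_, ?_, ?_, ?_⟩
  · rintro (_ | x)
    · exact hg3
    · rw [hg1]; exact hup x
  · rintro _ ⟨x, hx, rfl⟩
    rw [hg1]; exact hB x hx
  · rintro _ ⟨x, hx, rfl⟩ _ ⟨y, hy, rfl⟩ hxy
    exact hind x hx y hy ((twin_some H' a' b' x y).1 hxy).1
  · rintro _ ⟨x, hx, rfl⟩
    simp [hu x hx]
  · rintro (_ | x) hx (_ | y) hy hxy
    · rfl
    · simp at hxy
    · simp at hxy
    · congr 1
      refine hinj x (fun h => hx ⟨x, h, rfl⟩) y (fun h => hy ⟨y, h, rfl⟩) ?_
      simpa using hxy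
  · rintro (_ | x) hx hxu
    · simp at hxu
    · exact hne x (fun h => hx ⟨x, h, rfl⟩) (by simpa using hxu)
  · rintro (_ | p) (_ | r)
    · constructor
      · intro h
        exact absurd h ((Pool.Agent.TH592.BL.twin K a b).loopless.irrefl _)
      · rintro ⟨x, y, hx, hy, hxy⟩
        rcases x with _ | x
        · rcases y with _ | y
          · exact absurd hxy ((Pool.Agent.TH592.BL.twin H' a' b').loopless.irrefl _)
          · simp at hy
        · simp at hx
    · rw [twin_none K a b r]
      constructor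
      · rintro (rfl | rfl)
        · exact ⟨none, some a', rfl, by simp [ha'], (twin_none H' a' b' a').2 (Or.inl rfl)⟩
        · exact ⟨none, some b', rfl, by simp [hb'], (twin_none H' a' b' b').2 (Or.inr rfl)⟩
      · rintro ⟨x, y, hx, hy, hxy⟩
        rcases x with _ | x
        · rcases y with _ | y
          · simp at hy
          · have hy' : ψ y = r := by simpa using hy
            rcases (twin_none H' a' b' y).1 hxy with rfl | rfl
            · exact Or.inl (hy'.symm.trans ha')
            · exact Or.inr (hy'.symm.trans hb')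
        · simp at hx
    · rw [SimpleGraph.adj_comm, twin_none K a b p]
      constructor
      · rintro (rfl | rfl)
        · exact ⟨some a', none, by simp [ha'], rfl, ((twin_none H' a' b' a').2 (Or.inl rfl)).symm⟩
        · exact ⟨some b', none, by simp [hb'], rfl, ((twin_none H' a' b' b').2 (Or.inr rfl)).symm⟩
      · rintro ⟨x, y, hx, hy, hxy⟩
        rcases y with _ | y
        · rcases x with _ | x
          · simp at hx
          · have hx' : ψ x = p := by simpa using hx
            rcases (twin_none H' a' b' x).1 hxy.symm with rfl | rfl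
            · exact Or.inl (hx'.symm.trans ha')
            · exact Or.inr (hx'.symm.trans hb')
        · simp at hy
    · rw [twin_some K a b p r]
      constructor
      · intro h
        obtain ⟨x, y, rfl, rfl, hxy⟩ := (hK p r).1 h
        by_cases hx : x = c''
        · subst hx
          rw [hc''] at h
          rcases (hN (ψ y)).1 h with h3 | h3
          · exact ⟨some x, some a', rfl, by simp [ha', h3],
              (twin_some H' a' b' x a').2 ((hN' a').2 (Or.inl rfl))⟩
          · exact ⟨some x, some b', rfl, by simp [hb', h3],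
              (twin_some H' a' b' x b').2 ((hN' b').2 (Or.inr rfl))⟩
        · by_cases hy : y = c''
          · subst hy
            rw [hc''] at h
            rcases (hN (ψ x)).1 h.symm with h3 | h3
            · exact ⟨some a', some y, by simp [ha', h3], rfl,
                (twin_some H' a' b' a' y).2 ((hN' a').2 (Or.inl rfl)).symm⟩
            · exact ⟨some b', some y, by simp [hb', h3], rfl,
                (twin_some H' a' b' b' y).2 ((hN' b').2 (Or.inr rfl)).symm⟩
          · exact ⟨some x, some y, rfl, rfl, (twin_some H' a' b' x y).2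
              ⟨hxy, fun h => absurd h hx, fun h => absurd h hy⟩⟩
      · rintro ⟨x, y, hx, hy, hxy⟩
        rcases x with _ | x
        · simp at hx
        · rcases y with _ | y
          · simp at hy
          · have hx' : ψ x = p := by simpa using hx
            have hy' : ψ y = r := by simpa using hy
            exact (hK p r).2 ⟨x, y, hx', hy', ((twin_some H' a' b' x y).1 hxy).1⟩

end Pool.Agent.TH592.BF
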