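import Pool.Agent.H207R2.BL.Plane

/-!
The inequality for a crossless half whose boundary vertices are identified according to a
noncrossing partition.
-/

set_option autoImplicit false
set_option linter.unusedSectionVars false

namespace Pool.Agent.TH592.BF

open Polynomial Pool.Agent.H207R2.BL

theorem quad (A B C : ℝ) (hC : 0 < C)
    (h : ∀ x y : ℝ, 0 ≤ x * x * A + 2 * (x * y * B) + y * y * C) : B ^ 2 ≤ C * A := by
  have := h C (-B)
  nlinarith

/-- Cauchy-Schwarz for a crossless half and a noncrossing partition of its boundary. -/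
theorem fold_ineq {V : Type} [Finite V] {n : ℕ} (N : SimpleGraph (V ⊕ Fin n)) (hN : Crossless N)
    (π : Setoid (Fin n)) (hπ : NonCrossing π) (p s : ℝ[X]) (hp : IsChrom (glue N N) p)
    (hs : ∀ [Fintype V] [DecidableEq V] (k : ℕ),
      s.eval (k : ℝ) = ∑ c : Fin n → Fin k, Pool.Agent.H207R2.BL.inner N k c * ind π c)
    (q : ℝ) (hq : 4 ≤ q) :
    s.eval q ^ 2 ≤ q ^ (Nat.card (Quotient π)) * p.eval q := by
  classical
  have : Fintype V := Fintype.ofFinite _
  choose m hm using fun (A : Finset (Sym2 (V ⊕ Fin n))) => ext_count (comp A)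
  have hinner : ∀ k (c : Fin n → Fin k), Pool.Agent.H207R2.BL.inner N k c =
      ∑ A ∈ N.edgeFinset.powerset, (-1 : ℝ) ^ A.card * (k : ℝ) ^ (m A) *
        ind (Setoid.comap Sum.inr (comp A)) c := by
    intro k c
    unfold Pool.Agent.H207R2.BL.inner
    simp_rw [pr_expand]
    rw [Finset.sum_comm]
    refine Finset.sum_congr rfl (fun A _ => ?_)
    rw [← Finset.mul_sum, hm A k c]
    ring
  let σ : Finset (Sym2 (V ⊕ Fin n)) → Setoid (Fin n) := fun A => Setoid.comap Sum.inr (comp A)
  let E := N.edgeFinset.powerset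
  -- the polynomials
  let P : ℝ[X] := ∑ A ∈ E, ∑ B ∈ E,
      C ((-1 : ℝ) ^ A.card * (-1) ^ B.card) *
        X ^ (m A + m B + Nat.card (Quotient (σ A ⊔ σ B)))
  let S : ℝ[X] := ∑ A ∈ E, C ((-1 : ℝ) ^ A.card) *
        X ^ (m A + Nat.card (Quotient (σ A ⊔ π)))
  have hP : p = P := by
    apply Polynomial.eq_of_infinite_eval_eq
    apply Set.infinite_of_injective_forall_mem (f := fun k : ℕ => (k : ℝ)) Nat.cast_injective
    intro k
    change p.eval (k : ℝ) = P.eval (k : ℝ)
    rw [hp k, card_glue]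
    simp_rw [hinner, Finset.sum_mul_sum]
    rw [Finset.sum_comm]
    simp only [P, E, Polynomial.eval_finsetSum, Polynomial.eval_mul, Polynomial.eval_C,
      Polynomial.eval_pow, Polynomial.eval_X]
    refine Finset.sum_congr rfl (fun A _ => ?_)
    rw [Finset.sum_comm]
    refine Finset.sum_congr rfl (fun B _ => ?_)
    rw [pow_add, pow_add, ← sum_ind, Finset.mul_sum, Finset.mul_sum]
    refine Finset.sum_congr rfl (fun c _ => ?_)
    simp only [σ]
    ring
  have hS : s = S := by
    apply Polynomial.eq_of_infinite_eval_eq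
    apply Set.infinite_of_injective_forall_mem (f := fun k : ℕ => (k : ℝ)) Nat.cast_injective
    intro k
    change s.eval (k : ℝ) = S.eval (k : ℝ)
    rw [hs k]
    simp_rw [hinner, Finset.sum_mul]
    rw [Finset.sum_comm]
    simp only [S, E, Polynomial.eval_finsetSum, Polynomial.eval_mul, Polynomial.eval_C,
      Polynomial.eval_pow, Polynomial.eval_X]
    refine Finset.sum_congr rfl (fun A _ => ?_)
    rw [pow_add, ← sum_ind, Finset.mul_sum, Finset.mul_sum]
    refine Finset.sum_congr rfl (fun c _ => ?_)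
    simp only [σ]
    ring
  have hq0 : 0 < q := by linarith
  apply quad _ _ _ (pow_pos hq0 _)
  intro x y
  have hmain := gram n q hq (I := Option (Finset (Sym2 (V ⊕ Fin n))))
    (Finset.insertNone E)
    (fun o => o.elim y (fun A => x * ((-1 : ℝ) ^ A.card * q ^ (m A))))
    (fun o => o.elim π σ) (by
      intro o ho
      rcases o with _ | A
      · exact hπ
      · have hA : A ∈ E := by simpa using ho
        refine comap_nc N hN A ?_
        have := Finset.mem_powerset.1 hA
        intro e he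
        have h1 := this (Finset.mem_coe.1 he)
        simpa using h1)
  have e1 : ∀ o : Option (Finset (Sym2 (V ⊕ Fin n))),
      ∑ j ∈ Finset.insertNone E,
        (o.elim y (fun A => x * ((-1 : ℝ) ^ A.card * q ^ (m A)))) *
        (j.elim y (fun A => x * ((-1 : ℝ) ^ A.card * q ^ (m A)))) *
        q ^ (Nat.card (Quotient ((o.elim π σ) ⊔ (j.elim π σ)))) =
      (o.elim y (fun A => x * ((-1 : ℝ) ^ A.card * q ^ (m A)))) * y *
        q ^ (Nat.card (Quotient ((o.elim π σ) ⊔ π))) +
      ∑ B ∈ E, (o.elim y (fun A => x * ((-1 : ℝ) ^ A.card * q ^ (m A)))) *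
        (x * ((-1 : ℝ) ^ B.card * q ^ (m B))) *
        q ^ (Nat.card (Quotient ((o.elim π σ) ⊔ (σ B)))) := by
    intro o
    rw [Finset.sum_insertNone]
    rfl
  replace hmain := hmain.trans_eq (Finset.sum_congr rfl (fun o _ => e1 o))
  rw [Finset.sum_insertNone] at hmain
  simp only [Option.elim_none, Option.elim_some, sup_idem] at hmain
  rw [hP, hS]
  have hSe : S.eval q = ∑ A ∈ E, (-1 : ℝ) ^ A.card * q ^ (m A) *
      q ^ (Nat.card (Quotient (σ A ⊔ π))) := by
    simp only [S, Polynomial.eval_finsetSum, Polynomial.eval_mul, Polynomial.eval_C,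
      Polynomial.eval_pow, Polynomial.eval_X]
    refine Finset.sum_congr rfl (fun A _ => ?_)
    rw [pow_add]
    ring
  have hPe : P.eval q = ∑ A ∈ E, ∑ B ∈ E, ((-1 : ℝ) ^ A.card * q ^ (m A)) *
      ((-1 : ℝ) ^ B.card * q ^ (m B)) * q ^ (Nat.card (Quotient (σ A ⊔ σ B))) := by
    simp only [P, Polynomial.eval_finsetSum, Polynomial.eval_mul, Polynomial.eval_C,
      Polynomial.eval_pow, Polynomial.eval_X]
    refine Finset.sum_congr rfl (fun A _ => Finset.sum_congr rfl (fun B _ => ?_))
    rw [pow_add, pow_add]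
    ring
  have e2 : ∑ B ∈ E, y * (x * ((-1 : ℝ) ^ B.card * q ^ (m B))) *
      q ^ (Nat.card (Quotient (π ⊔ σ B))) = x * y * S.eval q := by
    rw [hSe, Finset.mul_sum]
    refine Finset.sum_congr rfl (fun B _ => ?_)
    rw [sup_comm]
    ring
  have e3 : ∑ A ∈ E, (x * ((-1 : ℝ) ^ A.card * q ^ (m A)) * y *
        q ^ (Nat.card (Quotient (σ A ⊔ π))) +
      ∑ B ∈ E, x * ((-1 : ℝ) ^ A.card * q ^ (m A)) *
        (x * ((-1 : ℝ) ^ B.card * q ^ (m B))) *
        q ^ (Nat.card (Quotient (σ A ⊔ σ B)))) = x * y * S.eval q + x * x * P.eval q := by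
    rw [Finset.sum_add_distrib, hSe, hPe, Finset.mul_sum, Finset.mul_sum]
    congr 1
    · refine Finset.sum_congr rfl (fun B _ => ?_)
      ring
    · refine Finset.sum_congr rfl (fun A _ => ?_)
      rw [Finset.mul_sum]
      refine Finset.sum_congr rfl (fun B _ => ?_)
      ring
  rw [e2, e3] at hmain
  linarith

end Pool.Agent.TH592.BF
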