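import Pool.Agent.TH592.BF.Count
import Pool.Agent.H207R2.BL.Mirror

/-!
Mirror symmetric plane graphs whose upper half is folded along the axis.  (The beginning of the proof
follows `Pool.Agent.H207R2.BL.mirror_ineq`.)
-/

set_option autoImplicit false
set_option linter.unusedSectionVars false

namespace Pool.Agent.TH592.BF

open Polynomial Set Pool.Agent.H207R2.BL

/-- `K` is the graph obtained from the part of `G` in the closed upper half plane by identifying
vertices on the `x`-axis according to a noncrossing partition; `φ` is the quotient map. -/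
structure Folding {V W : Type} (G : SimpleGraph V) (f : V → ℝ × ℝ) (K : SimpleGraph W)
    (φ : {v : V // 0 ≤ (f v).2} → W) : Prop where
  surj : Function.Surjective φ
  adj : ∀ a b : W, K.Adj a b ↔ ∃ x y, φ x = a ∧ φ y = b ∧ G.Adj x.1 y.1
  axis : ∀ x y, φ x = φ y → x ≠ y → (f x.1).2 = 0
  noncrossing : ∀ a b c d, (f a.1).2 = 0 → (f b.1).2 = 0 → (f c.1).2 = 0 → (f d.1).2 = 0 →
    (f a.1).1 < (f b.1).1 → (f b.1).1 < (f c.1).1 → (f c.1).1 < (f d.1).1 →
    φ a = φ c → φ b = φ d → φ a = φ b

theorem mirror_fold {V W : Type} [Finite V] (G : SimpleGraph V) (f : V → ℝ × ℝ)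
    (γ : V → V → ℝ → ℝ × ℝ) (h : MirrorDrawing G f γ) (K : SimpleGraph W)
    (φK : {v : V // 0 ≤ (f v).2} → W) (hF : Folding G f K φK) (p r : ℝ[X]) (hp : IsChrom G p)
    (hr : IsChrom K r) (q : ℝ) (hq : 4 ≤ q) :
    r.eval q ^ 2 ≤ q ^ (Nat.card {w : W // ∃ v, (f v.1).2 = 0 ∧ φK v = w}) * p.eval q := by
  classical
  obtain ⟨hd, ⟨σ, hσ, hadj⟩, hup, hno⟩ := h
  have hf := hd.1
  have hσσ : ∀ v, σ (σ v) = v := by
    intro v
    apply hf
    rw [hσ, hσ]
    simp
  have hσinj : Function.Injective σ := fun a b hab => by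
    rw [← hσσ a, ← hσσ b, hab]
  have hadj' : ∀ u v, G.Adj (σ u) (σ v) → G.Adj u v := by
    intro u v h
    have := hadj _ _ h
    rwa [hσσ, hσσ] at this
  -- order the vertices on the axis
  let Bv := {v : V // (f v).2 = 0}
  have : Finite Bv := inferInstance
  have : Fintype Bv := Fintype.ofFinite Bv
  have hinj : Function.Injective (fun v : Bv => (f v.1).1) := by
    intro a b hab
    apply Subtype.ext
    apply hf
    exact Prod.ext hab (by rw [a.2, b.2])
  let _ : LinearOrder Bv := LinearOrder.lift' (fun v : Bv => (f v.1).1) hinj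
  set n := Nat.card Bv with hn
  have hcard : Fintype.card Bv = n := by rw [hn, Nat.card_eq_fintype_card]
  let e : Fin n ≃o Bv := Fintype.orderIsoFinOfCardEq Bv hcard
  have he : ∀ i j : Fin n, i < j → (f (e i).1).1 < (f (e j).1).1 := by
    intro i j hij
    exact e.lt_iff_lt.2 hij
  have hσe : ∀ i : Fin n, σ (e i).1 = (e i).1 := by
    intro i
    apply hf
    rw [hσ]
    exact Prod.ext rfl (by rw [(e i).2]; simp)
  let U := {v : V // 0 < (f v).2}
  let φ : U ⊕ Fin n → V := Sum.elim (fun u => u.1) (fun i => (e i).1)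
  have hφinj : Function.Injective φ := by
    rintro (a | a) (b | b) hab
    · exact congrArg Sum.inl (Subtype.ext hab)
    · exfalso
      have h1 : a.1 = (e b).1 := hab
      have h2 := a.2
      rw [h1, (e b).2] at h2
      exact lt_irrefl _ h2
    · exfalso
      have h1 : (e a).1 = b.1 := hab
      have h2 := b.2
      rw [← h1, (e a).2] at h2
      exact lt_irrefl _ h2
    · exact congrArg Sum.inr (e.injective (Subtype.ext hab))
  have hφ0 : ∀ a, 0 ≤ (f (φ a)).2 := by
    rintro (a | a)
    · exact a.2.le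
    · exact (e a).2.ge
  let N : SimpleGraph (U ⊕ Fin n) := G.comap φ
  have hNadj : ∀ a b, N.Adj a b ↔ G.Adj (φ a) (φ b) := fun a b => Iff.rfl
  have hNd : IsDrawing N (fun a => f (φ a)) (fun a b => γ (φ a) (φ b)) := by
    refine ⟨hf.comp hφinj, ?_, ?_⟩
    · intro u v huv
      obtain ⟨h1, h2, h3, h4, h5⟩ := hd.2.1 _ _ huv
      exact ⟨h1, h2, h3, h4, fun t ht w => h5 t ht _⟩
    · intro u v u' v' huv huv' hne
      refine hd.2.2 _ _ _ _ huv huv' ?_
      intro h
      apply hne
      have := Sym2.map.injective hφinj (a₁ := s(u, v)) (a₂ := s(u', v')) (by simpa using h)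
      exact this
  have hNc : Crossless N := by
    refine crossless_of_drawing N _ _ hNd hφ0 ?_ ?_ ?_
    · intro u v huv
      exact hup _ _ huv (hφ0 u) (hφ0 v)
    · intro i
      exact (e i).2
    · intro i j hij
      exact he i j hij
  let φW : U ⊕ Fin n → W := fun a => φK ⟨φ a, hφ0 a⟩
  have hψ : ∀ v : {v : V // 0 ≤ (f v).2}, ∃ a, (⟨φ a, hφ0 a⟩ : {v : V // 0 ≤ (f v).2}) = v := by
    rintro ⟨v, hv⟩
    rcases lt_or_eq_of_le hv with h1 | h1
    · exact ⟨Sum.inl ⟨v, h1⟩, rfl⟩
    · refine ⟨Sum.inr (e.symm ⟨v, h1.symm⟩), ?_⟩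
      apply Subtype.ext
      change (e (e.symm ⟨v, h1.symm⟩)).1 = v
      rw [e.apply_symm_apply]
  let π : Setoid (Fin n) := Setoid.ker (fun i => φW (Sum.inr i))
  have hπ : NonCrossing π := by
    intro a b c d hab hbc hcd hac hbd
    exact hF.noncrossing ⟨φ (Sum.inr a), hφ0 _⟩ ⟨φ (Sum.inr b), hφ0 _⟩ ⟨φ (Sum.inr c), hφ0 _⟩
      ⟨φ (Sum.inr d), hφ0 _⟩ (e a).2 (e b).2 (e c).2 (e d).2 (he a b hab) (he b c hbc)
      (he c d hcd) hac hbd
  have hs : ∀ [Fintype U] [DecidableEq U] (k : ℕ),
      r.eval (k : ℝ) = ∑ c : Fin n → Fin k, Pool.Agent.H207R2.BL.inner N k c * ind π c := by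
    intro _ _ k
    refine fold_count N K φW ?_ ?_ ?_ r hr k
    · intro w
      obtain ⟨v, hv⟩ := hF.surj w
      obtain ⟨a, ha⟩ := hψ v
      exact ⟨a, by change φK _ = w; rw [ha, hv]⟩
    · intro a b
      rw [hF.adj]
      constructor
      · rintro ⟨x, y, hx, hy, hxy⟩
        obtain ⟨x', hx'⟩ := hψ x
        obtain ⟨y', hy'⟩ := hψ y
        refine ⟨x', y', ?_, ?_, ?_⟩
        · change φK _ = a
          rw [hx', hx]
        · change φK _ = b
          rw [hy', hy]
        · rw [hNadj]
          rw [← hx', ← hy'] at hxy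
          exact hxy
      · rintro ⟨x, y, hx, hy, hxy⟩
        exact ⟨⟨φ x, hφ0 x⟩, ⟨φ y, hφ0 y⟩, hx, hy, hxy⟩
    · intro x y hxy hne
      have h1 := hF.axis ⟨φ x, hφ0 x⟩ ⟨φ y, hφ0 y⟩ hxy
        (fun h => hne (hφinj (congrArg Subtype.val h)))
      rcases x with u | i
      · exfalso
        have h2 := u.2
        have h3 : (f u.1).2 = 0 := h1
        rw [h3] at h2
        exact lt_irrefl _ h2
      · exact ⟨i, rfl⟩
  have hp' : IsChrom (glue N N) p := by
    let Φ : (U ⊕ U) ⊕ Fin n → V :=
      Sum.elim (Sum.elim (fun u => u.1) (fun u => σ u.1)) (fun i => (e i).1)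
    have hσneg : ∀ u : U, (f (σ u.1)).2 < 0 := by
      intro u
      rw [hσ]
      have := u.2
      simpa using this
    have hΦ : Function.Bijective Φ := by
      constructor
      · rintro ((a | a) | a) ((b | b) | b) hab
        · exact congrArg (fun x => Sum.inl (Sum.inl x)) (Subtype.ext hab)
        · exfalso
          have h1 : a.1 = σ b.1 := hab
          have h2 := hσneg b
          rw [← h1] at h2
          exact lt_asymm a.2 h2
        · exfalso
          have h1 : a.1 = (e b).1 := hab
          have h2 := a.2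
          rw [h1, (e b).2] at h2
          exact lt_irrefl _ h2
        · exfalso
          have h1 : σ a.1 = b.1 := hab
          have h2 := hσneg a
          rw [h1] at h2
          exact lt_asymm b.2 h2
        · exact congrArg (fun x => Sum.inl (Sum.inr x)) (Subtype.ext (hσinj hab))
        · exfalso
          have h1 : σ a.1 = (e b).1 := hab
          have h2 := hσneg a
          rw [h1, (e b).2] at h2
          exact lt_irrefl _ h2
        · exfalso
          have h1 : (e a).1 = b.1 := hab
          have h2 := b.2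
          rw [← h1, (e a).2] at h2
          exact lt_irrefl _ h2
        · exfalso
          have h1 : (e a).1 = σ b.1 := hab
          have h2 := hσneg b
          rw [← h1, (e a).2] at h2
          exact lt_irrefl _ h2
        · exact congrArg Sum.inr (e.injective (Subtype.ext hab))
      · intro v
        rcases lt_trichotomy 0 (f v).2 with h1 | h1 | h1
        · exact ⟨Sum.inl (Sum.inl ⟨v, h1⟩), rfl⟩
        · refine ⟨Sum.inr (e.symm ⟨v, h1.symm⟩), ?_⟩
          change (e (e.symm ⟨v, h1.symm⟩)).1 = v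
          rw [e.apply_symm_apply]
        · refine ⟨Sum.inl (Sum.inr ⟨σ v, ?_⟩), ?_⟩
          · rw [hσ]
            simpa using h1
          · exact hσσ v
    have hΦ1 : ∀ a : U ⊕ Fin n, Φ (Sum.map Sum.inl id a) = φ a := by
      rintro (a | a) <;> rfl
    have hΦ2 : ∀ a : U ⊕ Fin n, Φ (Sum.map Sum.inr id a) = σ (φ a) := by
      rintro (a | a)
      · rfl
      · exact (hσe a).symm
    have i1 : Function.Injective (Sum.map Sum.inl id : U ⊕ Fin n → (U ⊕ U) ⊕ Fin n) :=
      Sum.map_injective.2 ⟨Sum.inl_injective, Function.injective_id⟩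
    have i2 : Function.Injective (Sum.map Sum.inr id : U ⊕ Fin n → (U ⊕ U) ⊕ Fin n) :=
      Sum.map_injective.2 ⟨Sum.inr_injective, Function.injective_id⟩
    have first : ∀ a b : U ⊕ Fin n, G.Adj (Φ (Sum.map Sum.inl id a)) (Φ (Sum.map Sum.inl id b)) →
        (glue N N).Adj (Sum.map Sum.inl id a) (Sum.map Sum.inl id b) := by
      intro a b h
      rw [hΦ1, hΦ1] at h
      exact Or.inl ⟨i1.ne (fun hab => h.ne (by rw [hab])), a, b, h, rfl, rfl⟩
    have second : ∀ a b : U ⊕ Fin n, G.Adj (Φ (Sum.map Sum.inr id a)) (Φ (Sum.map Sum.inr id b)) →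
        (glue N N).Adj (Sum.map Sum.inr id a) (Sum.map Sum.inr id b) := by
      intro a b h
      rw [hΦ2, hΦ2] at h
      have h' := hadj' _ _ h
      exact Or.inr ⟨i2.ne (fun hab => h.ne (by rw [hab])), a, b, h', rfl, rfl⟩
    have nomix : ∀ (a b : U), ¬ G.Adj a.1 (σ b.1) := by
      intro a b h
      have h1 := hno _ _ h a.2
      exact absurd (hσneg b) (not_lt.2 h1)
    let iso : glue N N ≃g G :=
      { Equiv.ofBijective Φ hΦ with
        map_rel_iff' := by
          intro x y
          change G.Adj (Φ x) (Φ y) ↔ (glue N N).Adj x y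
          constructor
          · intro h
            rcases x with (a | a) | a <;> rcases y with (b | b) | b
            · exact first (Sum.inl a) (Sum.inl b) h
            · exact absurd h (nomix a b)
            · exact first (Sum.inl a) (Sum.inr b) h
            · exact absurd h.symm (nomix b a)
            · exact second (Sum.inl a) (Sum.inl b) h
            · exact second (Sum.inl a) (Sum.inr b) h
            · exact first (Sum.inr a) (Sum.inl b) h
            · exact second (Sum.inr a) (Sum.inl b) h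
            · exact first (Sum.inr a) (Sum.inr b) h
          · rintro (⟨_, a, b, hab, rfl, rfl⟩ | ⟨_, a, b, hab, rfl, rfl⟩)
            · rw [hΦ1, hΦ1]
              exact hab
            · rw [hΦ2, hΦ2]
              exact hadj _ _ hab }
    exact hp.of_iso iso.symm
  have hfin := fold_ineq N hNc π hπ p r hp' hs q hq
  have hcardπ : Nat.card (Quotient π) = Nat.card {w : W // ∃ v, (f v.1).2 = 0 ∧ φK v = w} := by
    refine Nat.card_congr ((Setoid.quotientKerEquivRange _).trans (Equiv.setCongr ?_))
    ext w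
    constructor
    · rintro ⟨i, hi⟩
      exact ⟨⟨φ (Sum.inr i), hφ0 _⟩, (e i).2, hi⟩
    · rintro ⟨v, hv, hw⟩
      refine ⟨e.symm ⟨v.1, hv⟩, ?_⟩
      change φK _ = w
      rw [← hw]
      congr 1
      apply Subtype.ext
      change (e (e.symm ⟨v.1, hv⟩)).1 = v.1
      rw [e.apply_symm_apply]
  rw [hcardπ] at hfin
  exact hfin

end Pool.Agent.TH592.BF
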