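import Pool.Agent.TH592.BF.Apex
import Pool.Agent.TH592.BF.Mir
import Pool.Agent.H207R2.BL.Woodall

/-!
Mirror symmetric straight line drawings, and the graph obtained from the upper half when a set of
vertices on the axis is identified to one vertex.
-/

set_option autoImplicit false
set_option linter.unusedSectionVars false

namespace Pool.Agent.TH592.BF

open Polynomial Set Pool.Agent.H207R2.BL Pool.Agent.H110R3.BP

/-- the segment from `f u` to `f v` -/
noncomputable def seg {V : Type} (f : V → ℝ × ℝ) (u v : V) (t : ℝ) : ℝ × ℝ :=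
  (1 - t) • f u + t • f v

theorem seg_snd {V : Type} (f : V → ℝ × ℝ) (u v : V) (t : ℝ) :
    (seg f u v t).2 = (1 - t) * (f u).2 + t * (f v).2 := by
  simp [seg]

theorem seg_mem {V : Type} (f : V → ℝ × ℝ) (u v : V) (t : ℝ) (ht : t ∈ Ioo (0 : ℝ) 1) :
    seg f u v t ∈ openSegment ℝ (f u) (f v) :=
  ⟨1 - t, t, by linarith [ht.2], ht.1, by ring, rfl⟩

theorem drawing_of_straight {V : Type} (G : SimpleGraph V) (f : V → ℝ × ℝ)
    (h : IsStraight G f) : IsDrawing G f (seg f) := by
  refine ⟨h.1, ?_, ?_⟩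
  · intro u v huv
    have hne : f u ≠ f v := fun e => huv.ne (h.1 e)
    refine ⟨?_, ?_, ?_, ?_, ?_⟩
    · have : Continuous (seg f u v) := by
        unfold seg
        fun_prop
      exact this.continuousOn
    · intro s _ t _ hst
      have h1 : (t - s) • (f v - f u) = 0 := by
        have h2 : seg f u v t - seg f u v s = 0 := by rw [hst]; exact sub_self _
        rw [← h2]
        unfold seg
        ext
        · simp only [Prod.smul_fst, Prod.fst_sub, Prod.fst_add, smul_eq_mul]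
          ring
        · simp only [Prod.smul_snd, Prod.snd_sub, Prod.snd_add, smul_eq_mul]
          ring
      rcases smul_eq_zero.1 h1 with h2 | h2
      · linarith
      · exact absurd (sub_eq_zero.1 h2).symm hne
    · simp [seg]
    · simp [seg]
    · intro t ht w hw
      exact h.2.1 u v w huv (hw ▸ seg_mem f u v t ht)
  · intro u v u' v' huv huv' hne t ht t' ht' heq
    exact Set.disjoint_left.1 (h.2.2 u v u' v' huv huv' hne) (seg_mem f u v t ht)
      (heq ▸ seg_mem f u' v' t' ht')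

/-- the upper half with the vertices of `B` identified to `none` -/
def foldB {V : Type} (G : SimpleGraph V) (f : V → ℝ × ℝ) (B : Set V)
    (hind : ∀ a ∈ B, ∀ b ∈ B, ¬ G.Adj a b)
    (φ : {v : V // 0 ≤ (f v).2} → Option {v : V // 0 ≤ (f v).2 ∧ v ∉ B})
    (hφ : ∀ x y, φ x = φ y → x = y ∨ (x.1 ∈ B ∧ y.1 ∈ B)) :
    SimpleGraph (Option {v : V // 0 ≤ (f v).2 ∧ v ∉ B}) where
  Adj a b := ∃ x y, φ x = a ∧ φ y = b ∧ G.Adj x.1 y.1
  symm := ⟨fun _ _ ⟨x, y, h1, h2, h3⟩ => ⟨y, x, h2, h1, h3.symm⟩⟩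
  loopless := ⟨by
    rintro a ⟨x, y, h1, h2, h3⟩
    rcases hφ x y (h1.trans h2.symm) with h | ⟨h, h'⟩
    · exact h3.ne (congrArg Subtype.val h)
    · exact hind _ h _ h' h3⟩

theorem mirror_pos {V : Type} [Finite V] (G : SimpleGraph V) (f : V → ℝ × ℝ)
    (hf : IsStraight G f)
    (hmir : ∃ σ : V → V, (∀ v, f (σ v) = ((f v).1, -(f v).2)) ∧
      ∀ u v, G.Adj u v → G.Adj (σ u) (σ v))
    (hno : ∀ u v, G.Adj u v → 0 < (f u).2 → 0 ≤ (f v).2) (B : Set V)
    (hB : ∀ b ∈ B, (f b).2 = 0) (hind : ∀ a ∈ B, ∀ b ∈ B, ¬ G.Adj a b) (col : V → Bool)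
    (hcol : ∀ a c, a ∉ B → c ∉ B → G.Adj a c → col a ≠ col c) (b0 : V) (hb0 : b0 ∈ B)
    (p : ℝ[X]) (hp : IsChrom G p) (q : ℝ) (hq : 4 ≤ q) : 0 < p.eval q := by
  classical
  have hM : MirrorDrawing G f (seg f) := by
    refine ⟨drawing_of_straight G f hf, hmir, ?_, hno⟩
    intro u v _ hu hv t ht
    rw [seg_snd]
    have h1 := mul_nonneg (sub_nonneg.2 ht.2) hu
    have h2 := mul_nonneg ht.1 hv
    linarith
  let φ : {v : V // 0 ≤ (f v).2} → Option {v : V // 0 ≤ (f v).2 ∧ v ∉ B} := fun v =>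
    if h : v.1 ∈ B then none else some ⟨v.1, v.2, h⟩
  have hφB : ∀ v : {v : V // 0 ≤ (f v).2}, v.1 ∈ B → φ v = none := by
    intro v hv
    simp only [φ, dif_pos hv]
  have hφn : ∀ (v : {v : V // 0 ≤ (f v).2}) (hv : v.1 ∉ B), φ v = some ⟨v.1, v.2, hv⟩ := by
    intro v hv
    simp only [φ, dif_neg hv]
  have hφ : ∀ x y, φ x = φ y → x = y ∨ (x.1 ∈ B ∧ y.1 ∈ B) := by
    intro x y h
    by_cases hx : x.1 ∈ B
    · by_cases hy : y.1 ∈ B
      · exact Or.inr ⟨hx, hy⟩
      · rw [hφB x hx, hφn y hy] at h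
        exact absurd h (by simp)
    · by_cases hy : y.1 ∈ B
      · rw [hφn x hx, hφB y hy] at h
        exact absurd h (by simp)
      · rw [hφn x hx, hφn y hy, Option.some.injEq, Subtype.mk.injEq] at h
        exact Or.inl (Subtype.ext h)
  let K := foldB G f B hind φ hφ
  have hF : Folding G f K φ := by
    refine ⟨?_, fun a b => Iff.rfl, ?_, ?_⟩
    · intro w
      rcases w with _ | v
      · exact ⟨⟨b0, (hB b0 hb0).ge⟩, hφB _ hb0⟩
      · exact ⟨⟨v.1, v.2.1⟩, hφn _ v.2.2⟩
    · intro x y hxy hne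
      rcases hφ x y hxy with h | ⟨h, _⟩
      · exact absurd h hne
      · exact hB _ h
    · intro a b c d _ _ _ _ hab hbc hcd hac hbd
      have h1 : a.1 ∈ B := by
        rcases hφ a c hac with h | ⟨h, _⟩
        · rw [h] at hab
          exact absurd (hab.trans hbc) (lt_irrefl _)
        · exact h
      have h2 : b.1 ∈ B := by
        rcases hφ b d hbd with h | ⟨h, _⟩
        · rw [h] at hbc
          exact absurd (hbc.trans hcd) (lt_irrefl _)
        · exact h
      rw [hφB a h1, hφB b h2]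
  obtain ⟨r, hr⟩ : ∃ r : ℝ[X], IsChrom K r := ⟨chr K, chr_spec K⟩
  have hrpos : 0 < r.eval q := by
    refine apex_pos (G.comap (fun v : {v : V // 0 ≤ (f v).2} => v.1)) (fun v => f v.1) ?_
      (fun v => v.2) {v | v.1 ∈ B} (fun b hb => hB _ hb) (fun a ha b hb => hind _ ha _ hb)
      (fun v => col v.1) (fun a c ha hc h => hcol _ _ ha hc h) K φ none (fun b hb => hφB b hb)
      ?_ ?_ (fun a b => Iff.rfl) r hr q hq
    · refine ⟨hf.1.comp Subtype.val_injective, fun u v w h => hf.2.1 _ _ _ h,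
        fun u v u' v' h h' hne => hf.2.2 _ _ _ _ h h' ?_⟩
      intro he
      apply hne
      exact Sym2.map.injective Subtype.val_injective (by simpa using he)
    · intro a ha c hc h
      rcases hφ a c h with h1 | ⟨h1, _⟩
      · exact h1
      · exact absurd h1 ha
    · intro a ha h
      rw [hφn a ha] at h
      exact absurd h (by simp)
  have h1 := mirror_fold G f (seg f) hM K φ hF p r hp hr q hq
  have hq0 : (0 : ℝ) < q := by linarith
  have hsq : 0 < r.eval q ^ 2 := by positivity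
  by_contra hcon
  push Not at hcon
  have h5 := mul_nonpos_of_nonneg_of_nonpos (pow_pos hq0
    (Nat.card {w // ∃ v : {v : V // 0 ≤ (f v).2}, (f v.1).2 = 0 ∧ φ v = w})).le hcon
  linarith

end Pool.Agent.TH592.BF
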