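import Pool.Agent.TH592.BL.Main
import Pool.Agent.TH592.BF.Drawn

/-!
Chromatic polynomials of graphs drawn above the axis with a set of vertices on the axis identified,
which become bipartite up to this vertex when an independent set of vertices off the axis is deleted
whose neighbours form closed walks of length four.  (This file follows `Pool.Agent.TH592.BL.Main`.)
-/

set_option autoImplicit false
set_option linter.unusedSectionVars false

namespace Pool.Agent.TH592.BF

open Polynomial Pool.Agent.H207R2.BL Pool.Agent.H110R3.BP Pool.Agent.TH592.BL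

/-- the data of the induction -/
structure Cfg2 {V : Type} (G : SimpleGraph V) (f : V) (U C : Set V) (κ : V → Bool) :
    Prop where
  drawn : Drawn G f
  uU : ∀ x, x ∈ U ↔ x = f
  disj : ∀ u ∈ U, u ∉ C
  indep : ∀ x ∈ C, ∀ y ∈ C, ¬ G.Adj x y
  link : ∀ c ∈ C, ∃ v1 v2 v3 v4, (∀ x, G.Adj c x ↔ x = v1 ∨ x = v2 ∨ x = v3 ∨ x = v4) ∧
    G.Adj v1 v2 ∧ G.Adj v2 v3 ∧ G.Adj v3 v4 ∧ G.Adj v4 v1 ∧ ¬ (v1 ∈ U ∧ v3 ∈ U) ∧
    ¬ (v2 ∈ U ∧ v4 ∈ U)
  bip : ∀ x y, G.Adj x y → x ∉ U → x ∉ C → y ∉ U → y ∉ C → κ x ≠ κ y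

theorem Cfg2.uniq {V : Type} {G : SimpleGraph V} {f : V} {U C : Set V} {κ : V → Bool}
    (h : Cfg2 G f U C κ) {x y : V} (hx : x ∈ U) (hy : y ∈ U) : x = y :=
  ((h.uU x).1 hx).trans ((h.uU y).1 hy).symm

theorem cfg2_base {V : Type} [Fintype V] {G : SimpleGraph V} {f : V} {U C : Set V}
    {κ : V → Bool} (h : Cfg2 G f U C κ) (hC : C = ∅) (p : ℝ[X]) (hp : IsChrom G p) (q : ℝ)
    (hq : 4 ≤ q) : 0 < p.eval q := by
  subst hC
  obtain ⟨X, hX, H, g, B, ψ, hs, hup, hB, hind, hu, hinj, hne, hK⟩ := h.drawn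
  refine apex_pos H g hs hup B hB hind (fun x => κ (ψ x)) ?_ G ψ f hu hinj hne hK p hp q hq
  intro a c ha hc hac
  exact h.bip (ψ a) (ψ c) ((hK _ _).2 ⟨a, c, rfl, rfl, hac⟩)
    (fun e => hne a ha ((h.uU _).1 e)) (Set.notMem_empty _)
    (fun e => hne c hc ((h.uU _).1 e)) (Set.notMem_empty _)

theorem cfg2_reN {V : Type} {G : SimpleGraph V} {f : V} {U C : Set V}
    {κ : V → Bool} (h : Cfg2 G f U C κ) (c : V) (hc : c ∈ C) (S : Set V)
    (hS : ∀ x ∈ S, G.Adj c x) (κc : Bool) (hκ : ∀ x ∈ S, x ∉ U → κ x ≠ κc) :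
    ∃ κ', Cfg2 (reN G c S) f U (C \ {c}) κ' := by
  classical
  refine ⟨Function.update κ c κc, ⟨h.drawn.le (fun a b hab => reN_le hS hab), h.uU, ?_, ?_, ?_, ?_⟩⟩
  · intro u hu hu'
    exact h.disj u hu hu'.1
  · intro x hx y hy hxy
    exact h.indep x hx.1 y hy.1 (reN_le hS hxy)
  · intro c' hc'
    obtain ⟨v1, v2, v3, v4, hN, h12, h23, h34, h41, hu1, hu2⟩ := h.link c' hc'.1
    have hcc : c' ≠ c := hc'.2
    have hne : ∀ x, G.Adj c' x → x ≠ c := by
      rintro x hx rfl
      exact h.indep c' hc'.1 x hc hx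
    have n1 := hne v1 ((hN v1).2 (by simp))
    have n2 := hne v2 ((hN v2).2 (by simp))
    have n3 := hne v3 ((hN v3).2 (by simp))
    have n4 := hne v4 ((hN v4).2 (by simp))
    refine ⟨v1, v2, v3, v4, ?_, (reN_ne G c S _ _ n1 n2).2 h12, (reN_ne G c S _ _ n2 n3).2 h23,
      (reN_ne G c S _ _ n3 n4).2 h34, (reN_ne G c S _ _ n4 n1).2 h41, hu1, hu2⟩
    intro x
    by_cases hx : x = c
    · subst hx
      constructor
      · intro h1
        exact absurd (reN_le hS h1) (h.indep c' hc'.1 x hc)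
      · rintro (h1 | h1 | h1 | h1)
        · exact absurd h1.symm n1
        · exact absurd h1.symm n2
        · exact absurd h1.symm n3
        · exact absurd h1.symm n4
    · rw [reN_ne G c S c' x hcc hx]
      exact hN x
  · intro x y hxy hxU hxC hyU hyC
    rcases hxy with ⟨h1, h2, h3⟩ | ⟨h1, h2, h3⟩ | ⟨h1, h2, h3⟩
    · rw [Function.update_of_ne h1, Function.update_of_ne h2]
      exact h.bip x y h3 hxU (fun e => hxC ⟨e, h1⟩) hyU (fun e => hyC ⟨e, h2⟩)
    · subst h1
      rw [Function.update_self, Function.update_of_ne h2]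
      exact (hκ y h3 hyU).symm
    · subst h1
      rw [Function.update_self, Function.update_of_ne h2]
      exact hκ x h3 hxU

theorem cfg2_twin {W : Type} [Finite W] {H : SimpleGraph W} {f : W} {U C : Set W}
    {κ : W → Bool} (h : Cfg2 H f U C κ) (c a b : W) (t : TD H U C c a b) :
    ∃ κ', Cfg2 (twin H a b) (some f) (some '' U) (some '' C) κ' ∧
      TD (twin H a b) (some '' U) (some '' C) (none : Option W) (some a) (some b) := by
  have hdr := h.drawn.twin c a b t.ne t.nbr (fun e => t.cU ((h.uU c).2 e))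
  have ca : a ∉ U → κ c ≠ κ a := fun ha => h.bip c a ((t.nbr a).2 (Or.inl rfl)) t.cU t.cC ha t.aC
  have cb : b ∉ U → κ c ≠ κ b := fun hb => h.bip c b ((t.nbr b).2 (Or.inr rfl)) t.cU t.cC hb t.bC
  have mem : ∀ (S : Set W) (x : W), some x ∈ some '' S ↔ x ∈ S := by
    intro S x
    simp
  have nomem : ∀ (S : Set W), (none : Option W) ∉ some '' S := by
    intro S
    simp
  refine ⟨fun o => o.elim (κ c) κ, ⟨hdr, ?_, ?_, ?_, ?_, ?_⟩, ⟨?_, ?_, ?_, ?_, ?_, ?_⟩⟩
  · rintro (_ | x)
    · simp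
    · rw [mem, h.uU, Option.some_inj]
  · rintro _ ⟨u, hu, rfl⟩ hu'
    exact h.disj u hu ((mem C u).1 hu')
  · rintro _ ⟨x, hx, rfl⟩ _ ⟨y, hy, rfl⟩ hxy
    exact h.indep x hx y hy ((twin_some H a b x y).1 hxy)
  · rintro _ ⟨c', hc', rfl⟩
    obtain ⟨v1, v2, v3, v4, hN, h12, h23, h34, h41, hu1, hu2⟩ := h.link c' hc'
    refine ⟨some v1, some v2, some v3, some v4, ?_, (twin_some H a b _ _).2 h12,
      (twin_some H a b _ _).2 h23, (twin_some H a b _ _).2 h34, (twin_some H a b _ _).2 h41, ?_, ?_⟩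
    · rintro (_ | x)
      · constructor
        · intro h1
          rcases (twin_none H a b c').1 h1.symm with e | e
          · exact absurd (e ▸ hc') t.aC
          · exact absurd (e ▸ hc') t.bC
        · rintro (h1 | h1 | h1 | h1) <;> cases h1
      · rw [twin_some H a b, hN x]
        simp
    · rw [mem, mem]; exact hu1
    · rw [mem, mem]; exact hu2
  · rintro (_ | x) (_ | y) hxy hxU hxC hyU hyC
    · exact absurd hxy ((twin H a b).loopless.irrefl _)
    · change κ c ≠ κ y
      rw [mem] at hyU hyC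
      rcases (twin_none H a b y).1 hxy with rfl | rfl
      · exact ca hyU
      · exact cb hyU
    · change κ x ≠ κ c
      rw [mem] at hxU hxC
      rcases (twin_none H a b x).1 hxy.symm with rfl | rfl
      · exact (ca hxU).symm
      · exact (cb hxU).symm
    · rw [mem] at hxU hxC hyU hyC
      exact h.bip x y ((twin_some H a b x y).1 hxy) hxU hxC hyU hyC
  · intro e
    exact t.ne (Option.some_injective _ e)
  · rintro (_ | x)
    · constructor
      · intro h1
        exact absurd h1 ((twin H a b).loopless.irrefl _)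
      · rintro (h1 | h1) <;> cases h1
    · rw [twin_none H a b x]
      simp
  · exact nomem U
  · exact nomem C
  · rw [mem]; exact t.aC
  · rw [mem]; exact t.bC

/-- the induction hypothesis -/
def IHyp2 (q : ℝ) (n : ℕ) : Prop :=
  ∀ (V : Type) (_ : Fintype V) (G : SimpleGraph V) (f : V) (U C : Set V) (κ : V → Bool),
    Cfg2 G f U C κ → C.ncard = n → ∀ p : ℝ[X], IsChrom G p → 0 < p.eval q

theorem twins_seq2 {W : Type} [Fintype W] {H : SimpleGraph W} {f : W} {U C : Set W}
    {κ : W → Bool} (h : Cfg2 H f U C κ) (c a b : W) (t : TD H U C c a b) (m : ℕ) :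
    ∃ (W' : Type) (_ : Fintype W') (H' : SimpleGraph W') (f' : W') (U' C' : Set W')
      (κ' : W' → Bool) (c' a' b' : W'), Cfg2 H' f' U' C' κ' ∧ TD H' U' C' c' a' b' ∧
      C'.ncard = C.ncard ∧ (∀ k : ℕ, cn H' k (fun g => g a' = g b') =
        cn H k (fun g => g a = g b) * ((k : ℝ) - 1) ^ m) ∧
      (∀ k : ℕ, cn H' k (fun g => g a' ≠ g b') =
        cn H k (fun g => g a ≠ g b) * ((k : ℝ) - 2) ^ m) := by
  induction m with
  | zero =>
    refine ⟨W, inferInstance, H, f, U, C, κ, c, a, b, h, t, rfl, ?_, ?_⟩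
    · intro k; rw [pow_zero, mul_one]
    · intro k; rw [pow_zero, mul_one]
  | succ m ih =>
    obtain ⟨W', i', H', f', U', C', κ', c', a', b', h1, h2, h3, h4, h5⟩ := ih
    obtain ⟨κ'', g1, g2⟩ := cfg2_twin h1 c' a' b' h2
    refine ⟨Option W', inferInstance, twin H' a' b', some f', some '' U', some '' C',
      κ'', none, some a', some b', g1, g2, ?_, ?_, ?_⟩
    · rw [Set.ncard_image_of_injective _ (Option.some_injective _), h3]
    · intro k
      rw [twin_eq, h4, pow_succ]; ring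
    · intro k
      rw [twin_ne, h5, pow_succ]; ring

theorem ident_nonneg2 (q : ℝ) (hq : 4 < q) (n : ℕ) (IH : IHyp2 q n) {W : Type} [Fintype W]
    {H : SimpleGraph W} {f : W} {U C : Set W} {κ : W → Bool} (h : Cfg2 H f U C κ)
    (hn : C.ncard = n) (c a b : W) (t : TD H U C c a b) (α β : ℝ[X])
    (hα : ∀ k : ℕ, α.eval (k : ℝ) = cn H k (fun g => g a = g b))
    (hβ : ∀ k : ℕ, β.eval (k : ℝ) = cn H k (fun g => g a ≠ g b)) : 0 ≤ α.eval q := by
  apply pow_limit _ (β.eval q) q hq
  intro m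
  obtain ⟨W', i', H', f', U', C', κ', c', a', b', h1, h2, h3, h4, h5⟩ :=
    twins_seq2 h c a b t m
  have key : IsChrom H' (α * (X - 1) ^ m + β * (X - Polynomial.C (2 : ℝ)) ^ m) := by
    apply isChrom_of_cn
    intro k
    rw [cn_split H' k a' b', h4, h5, ← hα, ← hβ]
    simp
  have := IH W' i' H' f' U' C' κ' h1 (h3.trans hn) _ key
  simpa using this

theorem gamma_exists2 (q : ℝ) (hq : 4 < q) (n : ℕ) (IH : IHyp2 q n) {V : Type} [Fintype V]
    {G : SimpleGraph V} {f : V} {U C : Set V} {κ : V → Bool} (h : Cfg2 G f U C κ)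
    (c : V) (hc : c ∈ C) (hn : (C \ {c}).ncard = n) (a b v : V) (ha : G.Adj c a) (hb : G.Adj c b)
    (hv : v ∉ U) (hcv : G.Adj c v) (hav : G.Adj a v) (hbv : G.Adj b v) :
    ∃ γ : ℝ[X], (∀ k : ℕ, γ.eval (k : ℝ) =
      ((k : ℝ) - 1) * cn (reN G c ∅) k (fun g => g a = g b)) ∧ 0 ≤ γ.eval q := by
  have haC : a ∉ C := fun e => h.indep c hc a e ha
  have hbC : b ∉ C := fun e => h.indep c hc b e hb
  have hvC : v ∉ C := fun e => h.indep c hc v e hcv
  by_cases hab : a = b
  · subst hab
    obtain ⟨κ', hκ'⟩ := cfg2_reN h c hc ∅ (fun x hx => absurd hx (Set.notMem_empty _)) true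
      (fun x hx => absurd hx (Set.notMem_empty _))
    refine ⟨(X - 1) * chr (reN G c ∅), ?_, ?_⟩
    · intro k
      rw [eval_mul, cn_eval _ _ (chr_spec _) k]
      simp
    · rw [eval_mul]
      have h1 := IH V inferInstance _ f U _ κ' hκ' hn _ (chr_spec (reN G c ∅))
      have h2 : 0 ≤ (X - 1 : ℝ[X]).eval q := by
        simp
        linarith
      exact mul_nonneg h2 h1.le
  · have hS : ∀ x ∈ ({a, b} : Set V), G.Adj c x := by
      intro x hx
      simp only [Set.mem_insert_iff, Set.mem_singleton_iff] at hx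
      rcases hx with rfl | rfl
      · exact ha
      · exact hb
    obtain ⟨κ', hκ'⟩ := cfg2_reN h c hc {a, b} hS (κ v) (by
      intro x hx hxU
      simp only [Set.mem_insert_iff, Set.mem_singleton_iff] at hx
      rcases hx with rfl | rfl
      · exact h.bip _ _ hav hxU haC hv hvC
      · exact h.bip _ _ hbv hxU hbC hv hvC)
    have hcab : c ∉ ({a, b} : Set V) := by
      intro e
      exact G.loopless.irrefl c (hS c e)
    have t : TD (reN G c {a, b}) U (C \ {c}) c a b := by
      refine ⟨hab, ?_, fun e => h.disj c e hc, fun e => e.2 rfl, fun e => haC e.1,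
        fun e => hbC e.1⟩
      intro x
      rw [reN_c G c {a, b} hcab x]
      simp
    refine ⟨X * (chr (reN G c {a, b}) - chr (addE (reN G c {a, b}) a b)), ?_, ?_⟩
    · intro k
      rw [eval_mul, eval_sub, eval_X, cn_eval _ _ (chr_spec _) k, cn_eval _ _ (chr_spec _) k,
        cn_addE _ _ _ _ hab, cn_split (reN G c {a, b}) k a b, add_sub_cancel_right,
        id23 G c a b ha.ne.symm hb.ne.symm k]
    · rw [eval_mul, eval_X]
      refine mul_nonneg (by linarith) ?_
      refine ident_nonneg2 q hq n IH hκ' hn c a b t _ (chr (addE (reN G c {a, b}) a b)) ?_ ?_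
      · intro k
        rw [eval_sub, cn_eval _ _ (chr_spec _) k, cn_eval _ _ (chr_spec _) k,
          cn_addE _ _ _ _ hab, cn_split (reN G c {a, b}) k a b, add_sub_cancel_right]
      · intro k
        rw [cn_eval _ _ (chr_spec _) k, cn_addE _ _ _ _ hab]

theorem main_gt2 (q : ℝ) (hq : 4 < q) (n : ℕ) : IHyp2 q n := by
  induction n with
  | zero =>
    intro V _ G f U C κ h hC p hp
    have hC0 : C = ∅ := by
      rwa [Set.ncard_eq_zero (Set.toFinite C)] at hC
    exact cfg2_base h hC0 p hp q hq.le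
  | succ n IH =>
    intro V _ G f U C κ h hC p hp
    obtain ⟨c, hc⟩ : C.Nonempty := by
      rw [← Set.ncard_pos (Set.toFinite C)]
      omega
    have hn : (C \ {c}).ncard = n := by
      rw [Set.ncard_sdiff_singleton_of_mem hc]
      omega
    obtain ⟨v1, v2, v3, v4, hN, h12, h23, h34, h41, hu1, hu2⟩ := h.link c hc
    have c1 : G.Adj c v1 := (hN v1).2 (by simp)
    have c2 : G.Adj c v2 := (hN v2).2 (by simp)
    have c3 : G.Adj c v3 := (hN v3).2 (by simp)
    have c4 : G.Adj c v4 := (hN v4).2 (by simp)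
    obtain ⟨γ, hγ1, hγ2⟩ : ∃ γ : ℝ[X], (∀ k : ℕ, γ.eval (k : ℝ) =
        ((k : ℝ) - 1) * cn (reN G c ∅) k (fun g => g v1 = g v3)) ∧ 0 ≤ γ.eval q := by
      by_cases hv : v2 ∈ U
      · have hv4 : v4 ∉ U := fun e => hu2 ⟨hv, e⟩
        exact gamma_exists2 q hq n IH h c hc hn v1 v3 v4 c1 c3 hv4 c4 h41.symm h34
      · exact gamma_exists2 q hq n IH h c hc hn v1 v3 v2 c1 c3 hv c2 h12 h23.symm
    obtain ⟨δ, hδ1, hδ2⟩ : ∃ γ : ℝ[X], (∀ k : ℕ, γ.eval (k : ℝ) =
        ((k : ℝ) - 1) * cn (reN G c ∅) k (fun g => g v2 = g v4)) ∧ 0 ≤ γ.eval q := by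
      by_cases hv : v1 ∈ U
      · have hv3 : v3 ∉ U := fun e => hu1 ⟨hv, e⟩
        exact gamma_exists2 q hq n IH h c hc hn v2 v4 v3 c2 c4 hv3 c3 h23 h34.symm
      · exact gamma_exists2 q hq n IH h c hc hn v2 v4 v1 c2 c4 hv c1 h12.symm h41
    obtain ⟨κ', hκ'⟩ := cfg2_reN h c hc ∅ (fun x hx => absurd hx (Set.notMem_empty _)) true
      (fun x hx => absurd hx (Set.notMem_empty _))
    have h0 := IH V inferInstance _ f U _ κ' hκ' hn _ (chr_spec (reN G c ∅))
    have key : X * (X - 1) * p = (X - 1) * (X - Polynomial.C (4 : ℝ)) * chr (reN G c ∅) + γ + δ := by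
      apply Polynomial.eq_of_infinite_eval_eq
      apply Set.infinite_of_injective_forall_mem (f := fun k : ℕ => (k : ℝ)) Nat.cast_injective
      intro k
      change (X * (X - 1) * p).eval (k : ℝ) =
        ((X - 1) * (X - Polynomial.C (4 : ℝ)) * chr (reN G c ∅) + γ + δ).eval (k : ℝ)
      have h1 := id1 G c v1 v2 v3 v4 hN h12 h23 h34 h41 k
      rw [eval_add, eval_add, hγ1 k, hδ1 k]
      simp only [eval_mul, eval_sub, eval_X, eval_one, eval_C]
      rw [cn_eval G p hp k, cn_eval _ _ (chr_spec _) k]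
      linear_combination ((k : ℝ) - 1) * h1
    have h2 := congrArg (fun r : ℝ[X] => r.eval q) key
    simp only [eval_mul, eval_sub, eval_X, eval_one, eval_C, eval_add] at h2
    have h3 : 0 < (q - 1) * (q - 4) * (chr (reN G c ∅)).eval q :=
      mul_pos (mul_pos (by linarith) (by linarith)) h0
    have h4 : 0 < q * (q - 1) * p.eval q := by
      rw [h2]
      linarith
    exact (pos_iff_pos_of_mul_pos h4).1 (mul_pos (by linarith) (by linarith))

theorem cfg2_four {V : Type} [Fintype V] {G : SimpleGraph V} {f : V} {U C : Set V}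
    {κ : V → Bool} (h : Cfg2 G f U C κ) (p : ℝ[X]) (hp : IsChrom G p) : 0 < p.eval 4 := by
  classical
  have h4 := hp 4
  have e : ((4 : ℕ) : ℝ) = 4 := by norm_num
  rw [e] at h4
  rw [h4]
  have : Nonempty (G.Coloring (Fin 4)) := by
    refine ⟨SimpleGraph.Coloring.mk
      (fun x => if x ∈ U then (2 : Fin 4) else if x ∈ C then 3 else if κ x then 0 else 1) ?_⟩
    intro x y hxy
    by_cases hx : x ∈ U
    · by_cases hy : y ∈ U
      · exact absurd (h.uniq hx hy) hxy.ne
      · by_cases hy' : y ∈ C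
        · simp [hx, hy, hy']
        · by_cases hk : κ y <;> simp [hx, hy, hy', hk]
    · by_cases hx' : x ∈ C
      · by_cases hy : y ∈ U
        · simp [hx, hx', hy]
        · by_cases hy' : y ∈ C
          · exact absurd hxy (h.indep x hx' y hy')
          · by_cases hk : κ y <;> simp [hx, hx', hy, hy', hk]
      · by_cases hy : y ∈ U
        · by_cases hk : κ x <;> simp [hx, hx', hy, hk]
        · by_cases hy' : y ∈ C
          · by_cases hk : κ x <;> simp [hx, hx', hy, hy', hk]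
          · have := h.bip x y hxy hx hx' hy hy'
            cases hk : κ x <;> cases hk' : κ y <;> simp_all
  have h5 : 0 < Nat.card (G.Coloring (Fin 4)) := by
    have : Finite (G.Coloring (Fin 4)) := by
      have : Function.Injective (fun (c : G.Coloring (Fin 4)) (v : V) => c v) := by
        intro c c' hcc
        ext v
        exact congrArg Fin.val (congrFun hcc v)
      exact Finite.of_injective _ this
    exact Nat.card_pos
  exact_mod_cast h5

theorem cfg2_pos {V : Type} [Fintype V] {G : SimpleGraph V} {f : V} {U C : Set V}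
    {κ : V → Bool} (h : Cfg2 G f U C κ) (p : ℝ[X]) (hp : IsChrom G p) (q : ℝ) (hq : 4 ≤ q) :
    0 < p.eval q := by
  rcases hq.eq_or_lt with rfl | hq
  · exact cfg2_four h p hp
  · exact main_gt2 q hq C.ncard V inferInstance G f U C κ h rfl p hp

end Pool.Agent.TH592.BF
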