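import Pool.Agent.TH592.BF.Half
import Pool.Agent.TH592.BF.Main2

/-!
Mirror symmetric straight line drawings of graphs which become bipartite when a set of not adjacent
vertices on the axis and a set of not adjacent vertices with closed walks of length four as
neighbourhoods are deleted.
-/

set_option autoImplicit false
set_option linter.unusedSectionVars false

namespace Pool.Agent.TH592.BF

open Polynomial Set Pool.Agent.H207R2.BL Pool.Agent.H110R3.BP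

/-- The link of a vertex in the upper half. -/
theorem half_aux {V : Type} (G : SimpleGraph V) (f : V → ℝ × ℝ) (hinj : Function.Injective f)
    (σ : V → V) (hσ : ∀ v, f (σ v) = ((f v).1, -(f v).2))
    (hadj : ∀ u v, G.Adj u v → G.Adj (σ u) (σ v))
    (hno : ∀ u v, G.Adj u v → 0 < (f u).2 → 0 ≤ (f v).2) (B : Set V)
    (hB : ∀ b ∈ B, (f b).2 = 0) (c : V) (hc : 0 ≤ (f c).2) (v1 v2 v3 v4 : V)
    (hN : ∀ x, G.Adj c x ↔ x = v1 ∨ x = v2 ∨ x = v3 ∨ x = v4) (h12 : G.Adj v1 v2)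
    (h23 : G.Adj v2 v3) (h34 : G.Adj v3 v4) (h41 : G.Adj v4 v1) (hu1 : ¬ (v1 ∈ B ∧ v3 ∈ B))
    (h4 : (f v4).2 < 0) :
    ∃ w1 w2 w3 w4, (∀ x, 0 ≤ (f x).2 → (G.Adj c x ↔ x = w1 ∨ x = w2 ∨ x = w3 ∨ x = w4)) ∧
      (0 ≤ (f w1).2 ∧ 0 ≤ (f w2).2 ∧ 0 ≤ (f w3).2 ∧ 0 ≤ (f w4).2) ∧
      G.Adj w1 w2 ∧ G.Adj w2 w3 ∧ G.Adj w3 w4 ∧ G.Adj w4 w1 ∧ ¬ (w1 ∈ B ∧ w3 ∈ B) ∧
      ¬ (w2 ∈ B ∧ w4 ∈ B) := by
  have c4 : G.Adj c v4 := (hN v4).2 (by simp)
  have hc0 : (f c).2 = 0 := by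
    refine le_antisymm (not_lt.1 fun h => ?_) hc
    have := hno c v4 c4 h
    linarith
  have hσc : σ c = c := by
    apply hinj
    rw [hσ]
    exact Prod.ext rfl (by rw [hc0]; simp)
  have n1 : (f v1).2 ≤ 0 := not_lt.1 fun h => by
    have := hno v1 v4 h41.symm h
    linarith
  have n3 : (f v3).2 ≤ 0 := not_lt.1 fun h => by
    have := hno v3 v4 h34 h
    linarith
  have hpos : 0 < (f (σ v4)).2 := by
    rw [hσ]
    simpa using h4
  have hcs : G.Adj c (σ v4) := by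
    have := hadj c v4 c4
    rwa [hσc] at this
  have h2 : 0 < (f v2).2 := by
    rcases (hN _).1 hcs with h | h | h | h
    · rw [h] at hpos; linarith
    · rw [h] at hpos; exact hpos
    · rw [h] at hpos; linarith
    · rw [h] at hpos; linarith
  refine ⟨v1, v2, v3, v2, ?_, ⟨hno v2 v1 h12.symm h2, h2.le, hno v2 v3 h23 h2, h2.le⟩, h12, h23,
    h23.symm, h12.symm, hu1, ?_⟩
  · intro x hx
    rw [hN x]
    constructor
    · rintro (h | h | h | h)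
      · exact Or.inl h
      · exact Or.inr (Or.inl h)
      · exact Or.inr (Or.inr (Or.inl h))
      · rw [h] at hx; linarith
    · rintro (h | h | h | h)
      · exact Or.inl h
      · exact Or.inr (Or.inl h)
      · exact Or.inr (Or.inr (Or.inl h))
      · exact Or.inr (Or.inl h)
  · rintro ⟨h, _⟩
    have := hB _ h
    linarith

theorem half_link {V : Type} (G : SimpleGraph V) (f : V → ℝ × ℝ) (hinj : Function.Injective f)
    (hmir : ∃ σ : V → V, (∀ v, f (σ v) = ((f v).1, -(f v).2)) ∧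
      ∀ u v, G.Adj u v → G.Adj (σ u) (σ v))
    (hno : ∀ u v, G.Adj u v → 0 < (f u).2 → 0 ≤ (f v).2) (B : Set V)
    (hB : ∀ b ∈ B, (f b).2 = 0) (c : V) (hc : 0 ≤ (f c).2)
    (hlink : ∃ v1 v2 v3 v4, (∀ x, G.Adj c x ↔ x = v1 ∨ x = v2 ∨ x = v3 ∨ x = v4) ∧
      G.Adj v1 v2 ∧ G.Adj v2 v3 ∧ G.Adj v3 v4 ∧ G.Adj v4 v1 ∧ ¬ (v1 ∈ B ∧ v3 ∈ B) ∧
      ¬ (v2 ∈ B ∧ v4 ∈ B)) :
    ∃ w1 w2 w3 w4, (∀ x, 0 ≤ (f x).2 → (G.Adj c x ↔ x = w1 ∨ x = w2 ∨ x = w3 ∨ x = w4)) ∧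
      (0 ≤ (f w1).2 ∧ 0 ≤ (f w2).2 ∧ 0 ≤ (f w3).2 ∧ 0 ≤ (f w4).2) ∧
      G.Adj w1 w2 ∧ G.Adj w2 w3 ∧ G.Adj w3 w4 ∧ G.Adj w4 w1 ∧ ¬ (w1 ∈ B ∧ w3 ∈ B) ∧
      ¬ (w2 ∈ B ∧ w4 ∈ B) := by
  obtain ⟨σ, hσ, hadj⟩ := hmir
  obtain ⟨v1, v2, v3, v4, hN, h12, h23, h34, h41, hu1, hu2⟩ := hlink
  by_cases n4 : (f v4).2 < 0
  · exact half_aux G f hinj σ hσ hadj hno B hB c hc v1 v2 v3 v4 hN h12 h23 h34 h41 hu1 n4
  by_cases n1 : (f v1).2 < 0
  · exact half_aux G f hinj σ hσ hadj hno B hB c hc v2 v3 v4 v1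
      (fun x => by rw [hN x]; tauto) h23 h34 h41 h12 hu2 n1
  by_cases n2 : (f v2).2 < 0
  · exact half_aux G f hinj σ hσ hadj hno B hB c hc v3 v4 v1 v2
      (fun x => by rw [hN x]; tauto) h34 h41 h12 h23 (fun h => hu1 ⟨h.2, h.1⟩) n2
  by_cases n3 : (f v3).2 < 0
  · exact half_aux G f hinj σ hσ hadj hno B hB c hc v4 v1 v2 v3
      (fun x => by rw [hN x]; tauto) h41 h12 h23 h34 (fun h => hu2 ⟨h.2, h.1⟩) n3
  exact ⟨v1, v2, v3, v4, fun x _ => hN x, ⟨not_lt.1 n1, not_lt.1 n2, not_lt.1 n3, not_lt.1 n4⟩,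
    h12, h23, h34, h41, hu1, hu2⟩

theorem mirror_pos2 {V : Type} [Finite V] (G : SimpleGraph V) (f : V → ℝ × ℝ)
    (hf : IsStraight G f)
    (hmir : ∃ σ : V → V, (∀ v, f (σ v) = ((f v).1, -(f v).2)) ∧
      ∀ u v, G.Adj u v → G.Adj (σ u) (σ v))
    (hno : ∀ u v, G.Adj u v → 0 < (f u).2 → 0 ≤ (f v).2) (B C : Set V)
    (hB : ∀ b ∈ B, (f b).2 = 0) (hind : ∀ a ∈ B, ∀ b ∈ B, ¬ G.Adj a b)
    (hBC : ∀ c ∈ C, c ∉ B) (hCind : ∀ a ∈ C, ∀ b ∈ C, ¬ G.Adj a b)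
    (hlink : ∀ c ∈ C, ∃ v1 v2 v3 v4, (∀ x, G.Adj c x ↔ x = v1 ∨ x = v2 ∨ x = v3 ∨ x = v4) ∧
      G.Adj v1 v2 ∧ G.Adj v2 v3 ∧ G.Adj v3 v4 ∧ G.Adj v4 v1 ∧ ¬ (v1 ∈ B ∧ v3 ∈ B) ∧
      ¬ (v2 ∈ B ∧ v4 ∈ B)) (col : V → Bool)
    (hcol : ∀ a c, a ∉ B → a ∉ C → c ∉ B → c ∉ C → G.Adj a c → col a ≠ col c) (b0 : V)
    (hb0 : b0 ∈ B)
    (p : ℝ[X]) (hp : IsChrom G p) (q : ℝ) (hq : 4 ≤ q) : 0 < p.eval q := by
  classical
  have hM : MirrorDrawing G f (seg f) := by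
    refine ⟨drawing_of_straight G f hf, hmir, ?_, hno⟩
    intro u v _ hu hv t ht
    rw [seg_snd]
    have h1 := mul_nonneg (sub_nonneg.2 ht.2) hu
    have h2 := mul_nonneg ht.1 hv
    linarith
  let φ : {v : V // 0 ≤ (f v).2} → Option {v : V // 0 ≤ (f v).2 ∧ v ∉ B} := fun v =>
    if h : v.1 ∈ B then none else some ⟨v.1, v.2, h⟩
  have hφB : ∀ v : {v : V // 0 ≤ (f v).2}, v.1 ∈ B → φ v = none := by
    intro v hv
    simp only [φ, dif_pos hv]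
  have hφn : ∀ (v : {v : V // 0 ≤ (f v).2}) (hv : v.1 ∉ B), φ v = some ⟨v.1, v.2, hv⟩ := by
    intro v hv
    simp only [φ, dif_neg hv]
  have hφnone : ∀ v : {v : V // 0 ≤ (f v).2}, φ v = none → v.1 ∈ B := by
    intro v h
    by_contra hv
    rw [hφn v hv] at h
    exact absurd h (by simp)
  have hφ : ∀ x y, φ x = φ y → x = y ∨ (x.1 ∈ B ∧ y.1 ∈ B) := by
    intro x y h
    by_cases hx : x.1 ∈ B
    · by_cases hy : y.1 ∈ B
      · exact Or.inr ⟨hx, hy⟩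
      · rw [hφB x hx, hφn y hy] at h
        exact absurd h (by simp)
    · by_cases hy : y.1 ∈ B
      · rw [hφn x hx, hφB y hy] at h
        exact absurd h (by simp)
      · rw [hφn x hx, hφn y hy, Option.some.injEq, Subtype.mk.injEq] at h
        exact Or.inl (Subtype.ext h)
  let K := foldB G f B hind φ hφ
  have hsurj : Function.Surjective φ := by
    intro w
    rcases w with _ | v
    · exact ⟨⟨b0, (hB b0 hb0).ge⟩, hφB _ hb0⟩
    · exact ⟨⟨v.1, v.2.1⟩, hφn _ v.2.2⟩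
  have hF : Folding G f K φ := by
    refine ⟨hsurj, fun a b => Iff.rfl, ?_, ?_⟩
    · intro x y hxy hne
      rcases hφ x y hxy with h | ⟨h, _⟩
      · exact absurd h hne
      · exact hB _ h
    · intro a b c d _ _ _ _ hab hbc hcd hac hbd
      have h1 : a.1 ∈ B := by
        rcases hφ a c hac with h | ⟨h, _⟩
        · rw [h] at hab
          exact absurd (hab.trans hbc) (lt_irrefl _)
        · exact h
      have h2 : b.1 ∈ B := by
        rcases hφ b d hbd with h | ⟨h, _⟩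
        · rw [h] at hbc
          exact absurd (hbc.trans hcd) (lt_irrefl _)
        · exact h
      rw [hφB a h1, hφB b h2]
  obtain ⟨r, hr⟩ : ∃ r : ℝ[X], IsChrom K r := ⟨chr K, chr_spec K⟩
  let CK : Set (Option {v : V // 0 ≤ (f v).2 ∧ v ∉ B}) := {w | ∃ v, v.1 ∈ C ∧ φ v = w}
  have hCK : ∀ x : {v : V // 0 ≤ (f v).2}, φ x ∈ CK → x.1 ∈ C := by
    rintro x ⟨v, hv, hvx⟩
    rcases hφ v x hvx with h | ⟨h, _⟩
    · rw [← h]; exact hv
    · exact absurd h (hBC _ hv)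
  have hcfg : Cfg2 K none {none} CK
      (fun w => w.elim false (fun v => col v.1)) := by
    refine ⟨?_, fun x => Iff.rfl, ?_, ?_, ?_, ?_⟩
    · refine ⟨{v : V // 0 ≤ (f v).2}, inferInstance,
        G.comap (fun v : {v : V // 0 ≤ (f v).2} => v.1), fun v => f v.1, {v | v.1 ∈ B}, φ, ?_,
        fun v => v.2, fun b hb => hB _ hb, fun a ha b hb => hind _ ha _ hb,
        fun b hb => hφB b hb, ?_, ?_, fun a b => Iff.rfl⟩
      · refine ⟨hf.1.comp Subtype.val_injective, fun u v w h => hf.2.1 _ _ _ h,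
          fun u v u' v' h h' hne => hf.2.2 _ _ _ _ h h' ?_⟩
        intro he
        apply hne
        exact Sym2.map.injective Subtype.val_injective (by simpa using he)
      · intro a ha c hc h
        rcases hφ a c h with h1 | ⟨h1, _⟩
        · exact h1
        · exact absurd h1 ha
      · intro a ha h
        exact ha (hφnone a h)
    · rintro u hu ⟨v, hv, hvu⟩
      have hu' : u = none := hu
      rw [hu'] at hvu
      exact hBC _ hv (hφnone v hvu)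
    · rintro _ ⟨x, hx, rfl⟩ _ ⟨y, hy, rfl⟩ ⟨x', y', h1, h2, h3⟩
      have h4 : x'.1 ∈ C := hCK x' (by rw [h1]; exact ⟨x, hx, rfl⟩)
      have h5 : y'.1 ∈ C := hCK y' (by rw [h2]; exact ⟨y, hy, rfl⟩)
      exact hCind _ h4 _ h5 h3
    · rintro _ ⟨c, hc, rfl⟩
      obtain ⟨v1, v2, v3, v4, hN, ⟨n1, n2, n3, n4⟩, h12, h23, h34, h41, hu1, hu2⟩ :=
        half_link G f hf.1 hmir hno B hB c.1 c.2 (hlink c.1 hc)
      refine ⟨φ ⟨v1, n1⟩, φ ⟨v2, n2⟩, φ ⟨v3, n3⟩, φ ⟨v4, n4⟩, ?_, ⟨_, _, rfl, rfl, h12⟩,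
        ⟨_, _, rfl, rfl, h23⟩, ⟨_, _, rfl, rfl, h34⟩, ⟨_, _, rfl, rfl, h41⟩, ?_, ?_⟩
      · intro w
        constructor
        · rintro ⟨x, y, hx, rfl, hxy⟩
          have hxc : x = c := by
            rcases hφ x c hx with h | ⟨_, h⟩
            · exact h
            · exact absurd h (hBC _ hc)
          rw [hxc] at hxy
          rcases (hN y.1 y.2).1 hxy with h | h | h | h
          · exact Or.inl (congrArg φ (Subtype.ext h))
          · exact Or.inr (Or.inl (congrArg φ (Subtype.ext h)))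
          · exact Or.inr (Or.inr (Or.inl (congrArg φ (Subtype.ext h))))
          · exact Or.inr (Or.inr (Or.inr (congrArg φ (Subtype.ext h))))
        · rintro (rfl | rfl | rfl | rfl)
          · exact ⟨c, _, rfl, rfl, (hN v1 n1).2 (by simp)⟩
          · exact ⟨c, _, rfl, rfl, (hN v2 n2).2 (by simp)⟩
          · exact ⟨c, _, rfl, rfl, (hN v3 n3).2 (by simp)⟩
          · exact ⟨c, _, rfl, rfl, (hN v4 n4).2 (by simp)⟩
      · rintro ⟨h1, h3⟩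
        exact hu1 ⟨hφnone _ h1, hφnone _ h3⟩
      · rintro ⟨h1, h3⟩
        exact hu2 ⟨hφnone _ h1, hφnone _ h3⟩
    · rintro _ _ ⟨x, y, rfl, rfl, hxy⟩ hx hxC hy hyC
      have hxB : x.1 ∉ B := fun h => hx (hφB x h)
      have hyB : y.1 ∉ B := fun h => hy (hφB y h)
      have hxC' : x.1 ∉ C := fun h => hxC ⟨x, h, rfl⟩
      have hyC' : y.1 ∉ C := fun h => hyC ⟨y, h, rfl⟩
      rw [hφn x hxB, hφn y hyB]
      exact hcol _ _ hxB hxC' hyB hyC' hxy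
  have : Fintype (Option {v : V // 0 ≤ (f v).2 ∧ v ∉ B}) := Fintype.ofFinite _
  have hrpos : 0 < r.eval q := cfg2_pos hcfg r hr q hq
  have h1 := mirror_fold G f (seg f) hM K φ hF p r hp hr q hq
  have hq0 : (0 : ℝ) < q := by linarith
  have hsq : 0 < r.eval q ^ 2 := by positivity
  by_contra hcon
  push Not at hcon
  have h5 := mul_nonpos_of_nonneg_of_nonpos (pow_pos hq0
    (Nat.card {w // ∃ v : {v : V // 0 ≤ (f v).2}, (f v.1).2 = 0 ∧ φ v = w})).le hcon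
  linarith

end Pool.Agent.TH592.BF
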