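import Pool.Agent.H110R3.BP2.Core

/-!
Sweeping a graph drawn above the axis in which the vertices of a set `B` on the axis are identified
to one vertex.
-/

set_option autoImplicit false
set_option linter.unusedSectionVars false

namespace Pool.Agent.TH592.BF

open Polynomial Pool.Agent.H207R2.BL Pool.Agent.H110R3.BP Pool.Agent.H110R3.BP2

theorem in_above {W : Type} (u : W) (P Q : List W) (v : W) (I : List W) :
    ∀ (U : Set W) (E : Set (Sym2 W)), ProcU u (P ++ v :: (I ++ Q)) U E → (∀ w ∈ I, w ≠ v) →
      ProcU u (P ++ v :: Q) U (E ∪ {e | ∃ w ∈ I, e = s(w, v)}) := by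
  induction I with
  | nil =>
    intro U E h _
    have h1 : E ∪ {e | ∃ w ∈ ([] : List W), e = s(w, v)} = E := by
      ext e
      simp
    rw [h1]
    simpa using h
  | cons a I ih =>
    intro U E h hI
    have h1 : P ++ v :: ((a :: I) ++ Q) = P ++ v :: a :: (I ++ Q) := by simp
    rw [h1] at h
    have h2 := ProcU.edge P (I ++ Q) U E v a h (hI a (by simp)).symm
    have h2' : ProcU u ((P ++ [v]) ++ a :: (I ++ Q)) U (insert s(v, a) E) := by
      simpa using h2
    have h3 := ProcU.drop (P ++ [v]) (I ++ Q) U _ a h2'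
    have h3' : ProcU u (P ++ v :: (I ++ Q)) U (insert s(v, a) E) := by
      simpa using h3
    have h4 := ih U _ h3' (fun w hw => hI w (by simp [hw]))
    have h5 : insert s(v, a) E ∪ {e | ∃ w ∈ I, e = s(w, v)} =
        E ∪ {e | ∃ w ∈ a :: I, e = s(w, v)} := by
      ext e
      simp only [Set.mem_union, Set.mem_insert_iff, Set.mem_ofPred_eq, List.mem_cons]
      constructor
      · rintro ((he | he) | ⟨w, hw, he⟩)
        · exact Or.inr ⟨a, Or.inl rfl, he.trans Sym2.eq_swap⟩
        · exact Or.inl he
        · exact Or.inr ⟨w, Or.inr hw, he⟩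
      · rintro (he | ⟨w, hw | hw, he⟩)
        · exact Or.inl (Or.inr he)
        · exact Or.inl (Or.inl (by rw [he, hw]; exact Sym2.eq_swap))
        · exact Or.inr ⟨w, hw, he⟩
    rw [← h5]
    exact h4

theorem event_mid {W : Type} (u : W) (P Q I1 I2 : List W) (v : W) (b : ℕ) (U : Set W)
    (E : Set (Sym2 W)) (h : ProcU u (P ++ (I1 ++ v :: I2) ++ Q) U E) (h1 : ∀ w ∈ I1, w ≠ v)
    (h2 : ∀ w ∈ I2, w ≠ v) :
    ProcU u (P ++ List.replicate b v ++ Q) U
      (E ∪ {e | ∃ w, (w ∈ I1 ∨ w ∈ I2) ∧ e = s(w, v)}) := by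
  have h' : ProcU u (P ++ I1 ++ v :: (I2 ++ Q)) U E := by simpa using h
  have h3 := U38_in u P (I2 ++ Q) v I1 U E h' h1
  have h4 := in_above u P Q v I2 U _ h3 h2
  have h5 := U38_fin u P Q v b _ _ h4
  have h6 : E ∪ {e | ∃ w ∈ I1, e = s(w, v)} ∪ {e | ∃ w ∈ I2, e = s(w, v)} =
      E ∪ {e | ∃ w, (w ∈ I1 ∨ w ∈ I2) ∧ e = s(w, v)} := by
    ext e
    simp only [Set.mem_union, Set.mem_ofPred_eq]
    constructor
    · rintro ((he | ⟨w, hw, he⟩) | ⟨w, hw, he⟩)
      · exact Or.inl he
      · exact Or.inr ⟨w, Or.inl hw, he⟩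
      · exact Or.inr ⟨w, Or.inr hw, he⟩
    · rintro (he | ⟨w, hw | hw, he⟩)
      · exact Or.inl (Or.inl he)
      · exact Or.inl (Or.inr ⟨w, hw, he⟩)
      · exact Or.inr ⟨w, hw, he⟩
  rw [← h6]
  exact h5

theorem base_in {W : Type} (u : W) (Q : List W) (I : List W) :
    ∀ (U : Set W) (E : Set (Sym2 W)), ProcU u (I ++ Q) U E → (∀ w ∈ I, w ≠ u) →
      ProcU u Q U (E ∪ {e | ∃ w ∈ I, e = s(u, w)}) := by
  induction I with
  | nil =>
    intro U E h _
    have h1 : E ∪ {e | ∃ w ∈ ([] : List W), e = s(u, w)} = E := by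
      ext e
      simp
    rw [h1]
    simpa using h
  | cons a I ih =>
    intro U E h hI
    have h1 : (a :: I) ++ Q = a :: (I ++ Q) := by simp
    rw [h1] at h
    have h2 := ProcU.base (I ++ Q) U E a h (hI a (by simp)).symm
    have h3 := ProcU.drop [] (I ++ Q) U _ a h2
    have h4 := ih U _ h3 (fun w hw => hI w (by simp [hw]))
    have h5 : insert s(u, a) E ∪ {e | ∃ w ∈ I, e = s(u, w)} =
        E ∪ {e | ∃ w ∈ a :: I, e = s(u, w)} := by
      ext e
      simp only [Set.mem_union, Set.mem_insert_iff, Set.mem_ofPred_eq, List.mem_cons]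
      constructor
      · rintro ((he | he) | ⟨w, hw, he⟩)
        · exact Or.inr ⟨a, Or.inl rfl, he⟩
        · exact Or.inl he
        · exact Or.inr ⟨w, Or.inr hw, he⟩
      · rintro (he | ⟨w, hw | hw, he⟩)
        · exact Or.inl (Or.inr he)
        · exact Or.inl (Or.inl (by rw [he, hw]))
        · exact Or.inr ⟨w, hw, he⟩
    rw [← h5]
    exact h4

theorem base_out {W : Type} (u : W) (Q : List W) (O : List W) :
    ∀ (U : Set W) (E : Set (Sym2 W)), ProcU u Q U E → O.Nodup → (∀ w ∈ O, w ∉ U) →
      (∀ w ∈ O, w ≠ u) →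
      ProcU u (O ++ Q) (U ∪ {w | w ∈ O}) (E ∪ {e | ∃ w ∈ O, e = s(u, w)}) := by
  induction O with
  | nil =>
    intro U E h _ _ _
    have h1 : E ∪ {e | ∃ w ∈ ([] : List W), e = s(u, w)} = E := by
      ext e
      simp
    have h2 : U ∪ {w | w ∈ ([] : List W)} = U := by
      ext e
      simp
    rw [h1, h2]
    simpa using h
  | cons a O ih =>
    intro U E h hnd hU hu
    obtain ⟨hnd1, hnd2⟩ := List.nodup_cons.1 hnd
    have h1 := ih U E h hnd2 (fun w hw => hU w (by simp [hw])) (fun w hw => hu w (by simp [hw]))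
    have h2 := ProcU.new [] (O ++ Q) _ _ a h1 (by
      rintro (h3 | h3)
      · exact hU a (by simp) h3
      · exact hnd1 h3)
    have h3 := ProcU.base (O ++ Q) _ _ a h2 (hu a (by simp)).symm
    have h4 : insert a (U ∪ {w | w ∈ O}) = U ∪ {w | w ∈ a :: O} := by
      ext w
      simp only [Set.mem_union, Set.mem_insert_iff, Set.mem_ofPred_eq, List.mem_cons]
      tauto
    have h5 : insert s(u, a) (E ∪ {e | ∃ w ∈ O, e = s(u, w)}) =
        E ∪ {e | ∃ w ∈ a :: O, e = s(u, w)} := by
      ext e
      simp only [Set.mem_union, Set.mem_insert_iff, Set.mem_ofPred_eq, List.mem_cons]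
      constructor
      · rintro (he | he | ⟨w, hw, he⟩)
        · exact Or.inr ⟨a, Or.inl rfl, he⟩
        · exact Or.inl he
        · exact Or.inr ⟨w, Or.inr hw, he⟩
      · rintro (he | ⟨w, hw | hw, he⟩)
        · exact Or.inr (Or.inl he)
        · exact Or.inl (by rw [he, hw])
        · exact Or.inr (Or.inr ⟨w, hw, he⟩)
    rw [← h4, ← h5]
    exact h3

open Classical in
/-- the vertex carried by a strand -/
noncomputable def lab {X W : Type} (B : Set X) (ψ : X → W) (e : X × X) : W :=
  if e.1 ∈ B then ψ e.2 else ψ e.1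

/-- Data for the sweep: `B` is mapped to `u`, every other vertex has at most one neighbour in `B`,
and nothing is below a vertex in `B`. -/
structure Legs {X W : Type} (H : SimpleGraph X) (x y : X → ℝ) (g : X → X → ℝ → ℝ) (B : Set X)
    (ψ : X → W) (u : W) : Prop where
  mono : Mono H x y g
  indep : ∀ a ∈ B, ∀ b ∈ B, ¬ H.Adj a b
  one : ∀ v, v ∉ B → ∀ a ∈ B, ∀ b ∈ B, H.Adj a v → H.Adj b v → a = b
  low : ∀ b ∈ B, ∀ a c, H.Adj a c → x a < x b → x b < x c → y b < g a c (x b)
  inj : ∀ a, a ∉ B → ∀ c, c ∉ B → ψ a = ψ c → a = c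
  ne : ∀ a, a ∉ B → ψ a ≠ u

/-- the vertices used before time `t` -/
def Ut {X W : Type} (H : SimpleGraph X) (x : X → ℝ) (B : Set X) (ψ : X → W) (u : W) (t : ℝ) :
    Set W :=
  {w | w = u ∨ ∃ v, v ∉ B ∧ w = ψ v ∧ (x v < t ∨ ∃ b ∈ B, H.Adj b v ∧ x b < t)}

/-- the edges used before time `t` -/
def Et {X W : Type} (H : SimpleGraph X) (x : X → ℝ) (B : Set X) (ψ : X → W) (u : W) (t : ℝ) :
    Set (Sym2 W) :=
  {e | (∃ a c, a ∉ B ∧ c ∉ B ∧ e = s(ψ a, ψ c) ∧ H.Adj a c ∧ x a < t ∧ x c < t) ∨
    ∃ b v, b ∈ B ∧ v ∉ B ∧ e = s(u, ψ v) ∧ H.Adj b v ∧ x b < t}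

theorem sweep {X W : Type} [Finite X] (H : SimpleGraph X) (x y : X → ℝ) (g : X → X → ℝ → ℝ)
    (B : Set X) (ψ : X → W) (u : W) (hL : Legs H x y g B ψ u) (n : ℕ) :
    ∀ (t : ℝ), Set.ncard {v | x v < t} = n → (∀ v, x v ≠ t) →
    ∀ (l : List (X × X)), IsList H x g t l →
    ProcU u (l.map (lab B ψ)) (Ut H x B ψ u t) (Et H x B ψ u t) := by
  classical
  induction n using Nat.strong_induction_on with
  | _ n ih =>
    intro t hn ht l hl
    rcases Set.eq_empty_or_nonempty {v | x v < t} with he | hne
    · have hno : ∀ v, ¬ x v < t := fun v hv => by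
        have : v ∈ {v | x v < t} := hv
        rw [he] at this
        exact this
      have hl0 : l = [] := by
        rw [List.eq_nil_iff_forall_not_mem]
        intro e hel
        exact hno _ ((hl.mem e).1 hel).2.1
      have hU : Ut H x B ψ u t = {u} := by
        ext z
        simp only [Ut, Set.mem_ofPred_eq, Set.mem_singleton_iff]
        constructor
        · rintro (h1 | ⟨v, _, _, h1 | ⟨b, _, _, h1⟩⟩)
          · exact h1
          · exact absurd h1 (hno _)
          · exact absurd h1 (hno _)
        · exact fun h1 => Or.inl h1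
      have hE : Et H x B ψ u t = ∅ := by
        ext e
        simp only [Et, Set.mem_ofPred_eq, Set.mem_empty_iff_false, iff_false]
        rintro (⟨a, c, -, -, -, -, ha, -⟩ | ⟨b, v, -, -, -, -, ha⟩)
        · exact hno _ ha
        · exact hno _ ha
      rw [hl0, hU, hE]
      exact ProcU.nil
    · obtain ⟨z, hz, hmax⟩ := Set.exists_max_image {v | x v < t} x (Set.toFinite _) hne
      obtain ⟨t0, ht0, hzt⟩ := U39_t0 x (x z)
      have hvt : x z < t := hz
      have hno : ∀ w, w ≠ z → x w < t0 ∨ t < x w := by
        intro w hwz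
        rcases lt_or_gt_of_ne (ht w) with h1 | h1
        · refine Or.inl (hzt w (lt_of_le_of_ne (hmax w h1) fun h2 => hwz (hL.mono.inj h2)))
        · exact Or.inr h1
      obtain ⟨P, O, Q, I, hPOQ, hO, hI, hl', hP⟩ := event_list1 hL.mono z t0 t ht0 hvt hno l hl
      have hcase : ∀ w, x w < t → w ≠ z → x w < t0 := by
        intro w h1 hwz
        rcases hno w hwz with h2 | h2
        · exact h2
        · exact absurd h1 (not_lt.2 h2.le)
      have hmonot : ∀ w, x w < t0 → x w < t := fun w h1 => h1.trans (ht0.trans hvt)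
      have hz0 : ¬ x z < t0 := not_lt.2 ht0.le
      have hlt : Set.ncard {w | x w < t0} < n := by
        rw [← hn]
        apply Set.ncard_lt_ncard _ (Set.toFinite _)
        refine ⟨fun w h1 => hmonot w h1, fun h1 => ?_⟩
        exact hz0 (h1 hvt)
      have ht0' : ∀ w, x w ≠ t0 := by
        intro w hw0
        by_cases hwz : w = z
        · subst hwz
          exact absurd hw0 ht0.ne'
        · rcases hno w hwz with h2 | h2
          · exact absurd hw0 h2.ne
          · linarith
      have hp := ih _ hlt t0 rfl ht0' _ hl'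
      rw [List.map_append, List.map_append] at hp
      have hmemI : ∀ a, H.Adj a z → x a < x z → (a, z) ∈ I := fun a h1 h2 =>
        (hI (a, z)).2 ⟨h1, rfl, h2⟩
      have hlnd : l.Nodup := by
        have := hl.sorted
        refine this.imp ?_
        intro a b hab hne
        rw [hne] at hab
        exact lt_irrefl _ hab
      have hlnd' : (P ++ I ++ Q).Nodup := by
        have := hl'.sorted
        refine this.imp ?_
        intro a b hab hne
        rw [hne] at hab
        exact lt_irrefl _ hab
      have hInd : I.Nodup := (List.nodup_append.1 (List.nodup_append.1 hlnd').1).2.1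
      have hmemO : ∀ c, H.Adj z c → t < x c → (z, c) ∈ O := by
        intro c h1 h2
        have h3 : (z, c) ∈ l := (hl.mem (z, c)).2 ⟨h1, hvt, h2⟩
        rw [hPOQ, List.mem_append, List.mem_append] at h3
        rcases h3 with (h3 | h3) | h3
        · exfalso
          have h4 := (hl'.mem (z, c)).1 (by simp [h3])
          exact hz0 h4.2.1
        · exact h3
        · exfalso
          have h4 := (hl'.mem (z, c)).1 (by simp [h3])
          exact hz0 h4.2.1
      have hOact : ∀ e ∈ O, H.Adj z e.2 ∧ t < x e.2 := by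
        intro e he
        have h1 : e ∈ l := by
          rw [hPOQ]
          simp [he]
        have h2 := (hl.mem e).1 h1
        have h3 := hO e he
        refine ⟨?_, h2.2.2⟩
        rw [← h3]
        exact h2.1
      by_cases hzB : z ∈ B
      · -- a vertex of `B`
        have hP0 : P = [] := by
          rw [List.eq_nil_iff_forall_not_mem]
          intro e he
          obtain ⟨h1, h2, h3, h4⟩ := hP e he
          exact absurd h4 (not_lt.2 (hL.low z hzB e.1 e.2 h1 h2 h3).le)
        have hIlab : ∀ e ∈ I, e.1 ∉ B ∧ lab B ψ e = ψ e.1 := by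
          intro e he
          have h1 := (hI e).1 he
          have h2 : e.1 ∉ B := fun h3 => hL.indep e.1 h3 z hzB h1.1
          exact ⟨h2, by unfold lab; rw [if_neg h2]⟩
        have hOlab : ∀ e ∈ O, e.2 ∉ B ∧ lab B ψ e = ψ e.2 := by
          intro e he
          have h1 := hOact e he
          have h2 : e.2 ∉ B := fun h3 => hL.indep z hzB e.2 h3 h1.1
          refine ⟨h2, ?_⟩
          unfold lab
          rw [if_pos (by rw [hO e he]; exact hzB)]
        rw [hP0, List.map_nil, List.nil_append] at hp
        have hp1 := base_in u (Q.map (lab B ψ)) (I.map (lab B ψ)) _ _ hp (by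
          intro w hw
          obtain ⟨e, he, rfl⟩ := List.mem_map.1 hw
          obtain ⟨h1, h2⟩ := hIlab e he
          rw [h2]
          exact hL.ne _ h1)
        have hOnd : (O.map (lab B ψ)).Nodup := by
          have h1 : O.Nodup := by
            rw [hPOQ] at hlnd
            exact (List.nodup_append.1 (List.nodup_append.1 hlnd).1).2.1
          refine List.Nodup.map_on ?_ h1
          intro a ha b hb hab
          obtain ⟨a1, a2⟩ := hOlab a ha
          obtain ⟨b1, b2⟩ := hOlab b hb
          rw [a2, b2] at hab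
          exact Prod.ext ((hO a ha).trans (hO b hb).symm) (hL.inj _ a1 _ b1 hab)
        have hp2 := base_out u (Q.map (lab B ψ)) (O.map (lab B ψ)) _ _ hp1 hOnd (by
          intro w hw hwU
          obtain ⟨e, he, rfl⟩ := List.mem_map.1 hw
          obtain ⟨h1, h2⟩ := hOlab e he
          obtain ⟨h3, h4⟩ := hOact e he
          rw [h2] at hwU
          rcases hwU with h5 | ⟨v, hvB, hv, h5 | ⟨b, hb, h6, h7⟩⟩
          · exact hL.ne _ h1 h5
          · have h6 := hL.inj _ h1 _ hvB hv
            rw [← h6] at h5
            exact absurd (hmonot _ h5) (not_lt.2 h4.le)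
          · have h8 := hL.inj _ h1 _ hvB hv
            rw [← h8] at h6
            have h9 := hL.one _ h1 b hb z hzB h6 h3
            rw [h9] at h7
            exact hz0 h7) (by
          intro w hw
          obtain ⟨e, he, rfl⟩ := List.mem_map.1 hw
          obtain ⟨h1, h2⟩ := hOlab e he
          rw [h2]
          exact hL.ne _ h1)
        have hU : Ut H x B ψ u t = Ut H x B ψ u t0 ∪ {w | w ∈ O.map (lab B ψ)} := by
          ext w
          simp only [Ut, Set.mem_union, Set.mem_ofPred_eq]
          constructor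
          · rintro (h1 | ⟨v, hvB, rfl, h1⟩)
            · exact Or.inl (Or.inl h1)
            · have hvz : v ≠ z := fun h => hvB (h ▸ hzB)
              rcases h1 with h1 | ⟨b, hb, h1, h2⟩
              · exact Or.inl (Or.inr ⟨v, hvB, rfl, Or.inl (hcase v h1 hvz)⟩)
              · by_cases hbz : b = z
                · subst hbz
                  rcases hno v hvz with h3 | h3
                  · exact Or.inl (Or.inr ⟨v, hvB, rfl, Or.inl h3⟩)
                  · refine Or.inr ?_
                    have h4 := hmemO v h1 h3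
                    refine List.mem_map.2 ⟨_, h4, ?_⟩
                    exact (hOlab _ h4).2
                · exact Or.inl (Or.inr ⟨v, hvB, rfl, Or.inr ⟨b, hb, h1, hcase b h2 hbz⟩⟩)
          · rintro ((h1 | ⟨v, hvB, rfl, h1 | ⟨b, hb, h1, h2⟩⟩) | h1)
            · exact Or.inl h1
            · exact Or.inr ⟨v, hvB, rfl, Or.inl (hmonot _ h1)⟩
            · exact Or.inr ⟨v, hvB, rfl, Or.inr ⟨b, hb, h1, hmonot _ h2⟩⟩
            · obtain ⟨e, he, rfl⟩ := List.mem_map.1 h1
              obtain ⟨h2, h3⟩ := hOlab e he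
              exact Or.inr ⟨e.2, h2, h3, Or.inr ⟨z, hzB, (hOact e he).1, hvt⟩⟩
        have hE : Et H x B ψ u t = Et H x B ψ u t0 ∪ {e | ∃ w ∈ I.map (lab B ψ), e = s(u, w)} ∪
            {e | ∃ w ∈ O.map (lab B ψ), e = s(u, w)} := by
          ext e
          simp only [Et, Set.mem_union, Set.mem_ofPred_eq]
          constructor
          · rintro (⟨a, c, haB, hcB, rfl, hadj, ha, hc⟩ | ⟨b, v, hbB, hvB, rfl, hadj, hb⟩)
            · have haz : a ≠ z := fun h => haB (h ▸ hzB)
              have hcz : c ≠ z := fun h => hcB (h ▸ hzB)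
              exact Or.inl (Or.inl (Or.inl ⟨a, c, haB, hcB, rfl, hadj, hcase a ha haz,
                hcase c hc hcz⟩))
            · by_cases hbz : b = z
              · subst hbz
                have hvz : v ≠ b := fun h => hvB (h ▸ hzB)
                rcases hno v hvz with h3 | h3
                · have h4 := hmemI v hadj.symm (h3.trans ht0)
                  exact Or.inl (Or.inr ⟨_, List.mem_map.2 ⟨_, h4, (hIlab _ h4).2⟩, rfl⟩)
                · have h4 := hmemO v hadj h3
                  exact Or.inr ⟨_, List.mem_map.2 ⟨_, h4, (hOlab _ h4).2⟩, rfl⟩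
              · exact Or.inl (Or.inl (Or.inr ⟨b, v, hbB, hvB, rfl, hadj, hcase b hb hbz⟩))
          · rintro (((⟨a, c, haB, hcB, rfl, hadj, ha, hc⟩ | ⟨b, v, hbB, hvB, rfl, hadj, hb⟩) |
              ⟨w, hw, rfl⟩) | ⟨w, hw, rfl⟩)
            · exact Or.inl ⟨a, c, haB, hcB, rfl, hadj, hmonot _ ha, hmonot _ hc⟩
            · exact Or.inr ⟨b, v, hbB, hvB, rfl, hadj, hmonot _ hb⟩
            · obtain ⟨e, he, rfl⟩ := List.mem_map.1 hw
              obtain ⟨h1, h2⟩ := hIlab e he
              have h3 := (hI e).1 he
              exact Or.inr ⟨z, e.1, hzB, h1, by rw [h2], h3.1.symm, hvt⟩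
            · obtain ⟨e, he, rfl⟩ := List.mem_map.1 hw
              obtain ⟨h1, h2⟩ := hOlab e he
              exact Or.inr ⟨z, e.2, hzB, h1, by rw [h2], (hOact e he).1, hvt⟩
        rw [hPOQ, hP0, List.nil_append, List.map_append, hU, hE]
        exact hp2
      · -- another vertex
        have hOr : O.map (lab B ψ) = List.replicate O.length (ψ z) := by
          rw [List.eq_replicate_iff]
          refine ⟨List.length_map _, ?_⟩
          intro w hw
          obtain ⟨e, he, rfl⟩ := List.mem_map.1 hw
          unfold lab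
          rw [hO e he, if_neg hzB]
        by_cases hleg : ∃ b ∈ B, H.Adj b z ∧ x b < x z
        · obtain ⟨b, hbB, hbz, hbx⟩ := hleg
          have hbI : (b, z) ∈ I := hmemI b hbz hbx
          obtain ⟨I1, I2, hI12⟩ := List.append_of_mem hbI
          have hnot : ∀ e, (e ∈ I1 ∨ e ∈ I2) → e ≠ (b, z) := by
            intro e he hne
            rw [hI12] at hInd
            obtain ⟨n1, n2, n3⟩ := List.nodup_append.1 hInd
            rcases he with he | he
            · exact n3 e he (b, z) (by simp) hne
            · rw [List.nodup_cons] at n2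
              rw [hne] at he
              exact n2.1 he
          have hlabI : ∀ e, (e ∈ I1 ∨ e ∈ I2) → e ∈ I ∧ e.1 ∉ B ∧ lab B ψ e = ψ e.1 := by
            intro e he
            have h0 : e ∈ I := by
              rw [hI12]
              rcases he with he | he <;> simp [he]
            have h1 := (hI e).1 h0
            have h2 : e.1 ∉ B := by
              intro h3
              have h4 := hL.one z hzB e.1 h3 b hbB h1.1 hbz
              exact hnot e he (Prod.ext h4 h1.2.1)
            exact ⟨h0, h2, by unfold lab; rw [if_neg h2]⟩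
          have hlabz : lab B ψ (b, z) = ψ z := by
            unfold lab
            rw [if_pos hbB]
          have hne' : ∀ e, (e ∈ I1 ∨ e ∈ I2) → lab B ψ e ≠ ψ z := by
            intro e he hcon
            obtain ⟨h0, h1, h2⟩ := hlabI e he
            rw [h2] at hcon
            have h3 := hL.inj _ h1 _ hzB hcon
            have h4 := ((hI e).1 h0).2.2
            rw [h3] at h4
            exact lt_irrefl _ h4
          have hmapI : I.map (lab B ψ) = I1.map (lab B ψ) ++ ψ z :: I2.map (lab B ψ) := by
            rw [hI12, List.map_append, List.map_cons, hlabz]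
          rw [hmapI] at hp
          have hp' := event_mid u (P.map (lab B ψ)) (Q.map (lab B ψ)) (I1.map (lab B ψ))
            (I2.map (lab B ψ)) (ψ z) O.length _ _ hp (by
              intro w hw
              obtain ⟨e, he, rfl⟩ := List.mem_map.1 hw
              exact hne' e (Or.inl he)) (by
              intro w hw
              obtain ⟨e, he, rfl⟩ := List.mem_map.1 hw
              exact hne' e (Or.inr he))
          have hU : Ut H x B ψ u t = Ut H x B ψ u t0 := by
            ext w
            simp only [Ut, Set.mem_ofPred_eq]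
            constructor
            · rintro (h1 | ⟨v, hvB, rfl, h1 | ⟨b', hb', h1, h2⟩⟩)
              · exact Or.inl h1
              · by_cases hvz : v = z
                · subst hvz
                  exact Or.inr ⟨v, hvB, rfl, Or.inr ⟨b, hbB, hbz,
                    hzt b hbx⟩⟩
                · exact Or.inr ⟨v, hvB, rfl, Or.inl (hcase v h1 hvz)⟩
              · have hbz' : b' ≠ z := fun h => hzB (h ▸ hb')
                exact Or.inr ⟨v, hvB, rfl, Or.inr ⟨b', hb', h1, hcase b' h2 hbz'⟩⟩
            · rintro (h1 | ⟨v, hvB, rfl, h1 | ⟨b', hb', h1, h2⟩⟩)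
              · exact Or.inl h1
              · exact Or.inr ⟨v, hvB, rfl, Or.inl (hmonot _ h1)⟩
              · exact Or.inr ⟨v, hvB, rfl, Or.inr ⟨b', hb', h1, hmonot _ h2⟩⟩
          have hin12 : ∀ a, a ∉ B → H.Adj a z → x a < x z →
              ψ a ∈ I1.map (lab B ψ) ∨ ψ a ∈ I2.map (lab B ψ) := by
            intro a haB h1 h2
            have h3 := hmemI a h1 h2
            rw [hI12, List.mem_append, List.mem_cons] at h3
            rcases h3 with h3 | h3 | h3
            · exact Or.inl (List.mem_map.2 ⟨_, h3, (hlabI _ (Or.inl h3)).2.2⟩)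
            · exfalso
              have h4 : a = b := congrArg Prod.fst h3
              exact haB (h4 ▸ hbB)
            · exact Or.inr (List.mem_map.2 ⟨_, h3, (hlabI _ (Or.inr h3)).2.2⟩)
          have hE : Et H x B ψ u t = Et H x B ψ u t0 ∪
              {e | ∃ w, (w ∈ I1.map (lab B ψ) ∨ w ∈ I2.map (lab B ψ)) ∧ e = s(w, ψ z)} := by
            ext e
            simp only [Et, Set.mem_union, Set.mem_ofPred_eq]
            constructor
            · rintro (⟨a, c, haB, hcB, rfl, hadj, ha, hc⟩ | ⟨b', v, hbB', hvB, rfl, hadj, hb⟩)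
              · by_cases haz : a = z
                · subst haz
                  have hcz : c ≠ a := hadj.ne'
                  exact Or.inr ⟨ψ c, hin12 c hcB hadj.symm ((hcase c hc hcz).trans ht0),
                    Sym2.eq_swap⟩
                · by_cases hcz : c = z
                  · subst hcz
                    exact Or.inr ⟨ψ a, hin12 a haB hadj ((hcase a ha haz).trans ht0), rfl⟩
                  · exact Or.inl (Or.inl ⟨a, c, haB, hcB, rfl, hadj, hcase a ha haz,
                      hcase c hc hcz⟩)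
              · have hbz' : b' ≠ z := fun h => hzB (h ▸ hbB')
                exact Or.inl (Or.inr ⟨b', v, hbB', hvB, rfl, hadj, hcase b' hb hbz'⟩)
            · rintro ((⟨a, c, haB, hcB, rfl, hadj, ha, hc⟩ | ⟨b', v, hbB', hvB, rfl, hadj, hb⟩) |
                ⟨w, hw, rfl⟩)
              · exact Or.inl ⟨a, c, haB, hcB, rfl, hadj, hmonot _ ha, hmonot _ hc⟩
              · exact Or.inr ⟨b', v, hbB', hvB, rfl, hadj, hmonot _ hb⟩
              · have hw' : ∃ e, (e ∈ I1 ∨ e ∈ I2) ∧ lab B ψ e = w := by
                  rcases hw with hw | hw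
                  · obtain ⟨e, he, h1⟩ := List.mem_map.1 hw
                    exact ⟨e, Or.inl he, h1⟩
                  · obtain ⟨e, he, h1⟩ := List.mem_map.1 hw
                    exact ⟨e, Or.inr he, h1⟩
                obtain ⟨e, he, rfl⟩ := hw'
                obtain ⟨h0, h1, h2⟩ := hlabI e he
                obtain ⟨h3, -, h5⟩ := (hI e).1 h0
                exact Or.inl ⟨e.1, z, h1, hzB, by rw [h2], h3, h5.trans hvt, hvt⟩
          rw [hPOQ, List.map_append, List.map_append, hOr, hU, hE]
          exact hp'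
        · have hleg' : ∀ b ∈ B, H.Adj b z → ¬ x b < x z := fun b hb h1 h2 =>
            hleg ⟨b, hb, h1, h2⟩
          have hlabI : ∀ e ∈ I, e.1 ∉ B ∧ lab B ψ e = ψ e.1 := by
            intro e he
            have h1 := (hI e).1 he
            have h2 : e.1 ∉ B := fun h3 => hleg' e.1 h3 h1.1 h1.2.2
            exact ⟨h2, by unfold lab; rw [if_neg h2]⟩
          have hvU : ψ z ∉ Ut H x B ψ u t0 := by
            rintro (h1 | ⟨v, hvB, hv, h1 | ⟨b, hb, h1, h2⟩⟩)
            · exact hL.ne z hzB h1
            · have h3 := hL.inj _ hzB _ hvB hv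
              rw [← h3] at h1
              exact hz0 h1
            · have h3 := hL.inj _ hzB _ hvB hv
              rw [← h3] at h1
              exact hleg' b hb h1 (h2.trans ht0)
          have hp' := procU_event u (P.map (lab B ψ)) (Q.map (lab B ψ)) (I.map (lab B ψ)) (ψ z)
            O.length _ _ hp hvU (by
              intro w hw hcon
              obtain ⟨e, he, rfl⟩ := List.mem_map.1 hw
              obtain ⟨h1, h2⟩ := hlabI e he
              rw [h2] at hcon
              have h3 := hL.inj _ h1 _ hzB hcon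
              have h4 := ((hI e).1 he).2.2
              rw [h3] at h4
              exact lt_irrefl _ h4)
          have hU : Ut H x B ψ u t = insert (ψ z) (Ut H x B ψ u t0) := by
            ext w
            simp only [Ut, Set.mem_ofPred_eq, Set.mem_insert_iff]
            constructor
            · rintro (h1 | ⟨v, hvB, rfl, h1 | ⟨b', hb', h1, h2⟩⟩)
              · exact Or.inr (Or.inl h1)
              · by_cases hvz : v = z
                · subst hvz
                  exact Or.inl rfl
                · exact Or.inr (Or.inr ⟨v, hvB, rfl, Or.inl (hcase v h1 hvz)⟩)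
              · have hbz' : b' ≠ z := fun h => hzB (h ▸ hb')
                exact Or.inr (Or.inr ⟨v, hvB, rfl, Or.inr ⟨b', hb', h1, hcase b' h2 hbz'⟩⟩)
            · rintro (rfl | h1 | ⟨v, hvB, rfl, h1 | ⟨b', hb', h1, h2⟩⟩)
              · exact Or.inr ⟨z, hzB, rfl, Or.inl hvt⟩
              · exact Or.inl h1
              · exact Or.inr ⟨v, hvB, rfl, Or.inl (hmonot _ h1)⟩
              · exact Or.inr ⟨v, hvB, rfl, Or.inr ⟨b', hb', h1, hmonot _ h2⟩⟩
          have hE : Et H x B ψ u t = Et H x B ψ u t0 ∪
              {e | ∃ w ∈ I.map (lab B ψ), e = s(w, ψ z)} := by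
            ext e
            simp only [Et, Set.mem_union, Set.mem_ofPred_eq]
            constructor
            · rintro (⟨a, c, haB, hcB, rfl, hadj, ha, hc⟩ | ⟨b', v, hbB', hvB, rfl, hadj, hb⟩)
              · by_cases haz : a = z
                · subst haz
                  have hcz : c ≠ a := hadj.ne'
                  have h4 := hmemI c hadj.symm ((hcase c hc hcz).trans ht0)
                  exact Or.inr ⟨ψ c, List.mem_map.2 ⟨_, h4, (hlabI _ h4).2⟩, Sym2.eq_swap⟩
                · by_cases hcz : c = z
                  · subst hcz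
                    have h4 := hmemI a hadj ((hcase a ha haz).trans ht0)
                    exact Or.inr ⟨ψ a, List.mem_map.2 ⟨_, h4, (hlabI _ h4).2⟩, rfl⟩
                  · exact Or.inl (Or.inl ⟨a, c, haB, hcB, rfl, hadj, hcase a ha haz,
                      hcase c hc hcz⟩)
              · have hbz' : b' ≠ z := fun h => hzB (h ▸ hbB')
                exact Or.inl (Or.inr ⟨b', v, hbB', hvB, rfl, hadj, hcase b' hb hbz'⟩)
            · rintro ((⟨a, c, haB, hcB, rfl, hadj, ha, hc⟩ | ⟨b', v, hbB', hvB, rfl, hadj, hb⟩) |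
                ⟨w, hw, rfl⟩)
              · exact Or.inl ⟨a, c, haB, hcB, rfl, hadj, hmonot _ ha, hmonot _ hc⟩
              · exact Or.inr ⟨b', v, hbB', hvB, rfl, hadj, hmonot _ hb⟩
              · obtain ⟨e, he, rfl⟩ := List.mem_map.1 hw
                obtain ⟨h1, h2⟩ := hlabI e he
                obtain ⟨h3, -, h5⟩ := (hI e).1 he
                exact Or.inl ⟨e.1, z, h1, hzB, by rw [h2], h3, h5.trans hvt, hvt⟩
          rw [hPOQ, List.map_append, List.map_append, hOr, hU, hE]
          exact hp'

end Pool.Agent.TH592.BF
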